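import Pool.Agent.Lib.MP_7de92b_lc.Defs

/-!
# Arithmetical relations, comprehension and transfinite recursion without formulas
-/

set_option autoImplicit false
set_option linter.unusedSectionVars false

namespace Pool.Agent.Lib.MP_7de92b_lc

section ar

variable {N : Type} [Zero N] [One N] [Add N] [Mul N] [LT N]

/-- The environment `v` with a new variable `0` of value `a`. -/
def cons (a : N) (v : ℕ → N) : ℕ → N
  | 0 => a
  | n + 1 => v n

@[simp] lemma cons_zero (a : N) (v : ℕ → N) : cons a v 0 = a := rfl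
@[simp] lemma cons_succ (a : N) (v : ℕ → N) (n : ℕ) : cons a v (n + 1) = v n := rfl
lemma cons_tail (a : N) (v : ℕ → N) : (fun i => cons a v (i + 1)) = v := rfl

/-- Polynomial functions of the environment, constants allowed. -/
inductive TmF : ((ℕ → N) → N) → Prop
  | var (i : ℕ) : TmF (fun v => v i)
  | const (c : N) : TmF (fun _ => c)
  | add {s t : (ℕ → N) → N} : TmF s → TmF t → TmF (fun v => s v + t v)
  | mul {s t : (ℕ → N) → N} : TmF s → TmF t → TmF (fun v => s v * t v)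

/-- Arithmetical relations of a number environment and one set variable, with number parameters
and with set parameters from `𝒮`. -/
inductive Ar (𝒮 : Set (Set N)) : ((ℕ → N) → Set N → Prop) → Prop
  | eq {s t : (ℕ → N) → N} : TmF s → TmF t → Ar 𝒮 (fun v _ => s v = t v)
  | lt {s t : (ℕ → N) → N} : TmF s → TmF t → Ar 𝒮 (fun v _ => s v < t v)
  | memP {t : (ℕ → N) → N} {Y : Set N} : Y ∈ 𝒮 → TmF t → Ar 𝒮 (fun v _ => t v ∈ Y)
  | memX {t : (ℕ → N) → N} : TmF t → Ar 𝒮 (fun v X => t v ∈ X)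
  | not {R : (ℕ → N) → Set N → Prop} : Ar 𝒮 R → Ar 𝒮 (fun v X => ¬ R v X)
  | and {R R' : (ℕ → N) → Set N → Prop} : Ar 𝒮 R → Ar 𝒮 R' → Ar 𝒮 (fun v X => R v X ∧ R' v X)
  | ex' {R : (ℕ → N) → Set N → Prop} : Ar 𝒮 R → Ar 𝒮 (fun v X => ∃ a, R (cons a v) X)

lemma TmF.pr {s t : (ℕ → N) → N} (hs : TmF s) (ht : TmF t) :
    TmF (fun v => pr (s v) (t v)) :=
  (((hs.add ht).mul (hs.add ht)).add hs)

variable {𝒮 : Set (Set N)}

lemma Ar.congr {R R' : (ℕ → N) → Set N → Prop} (h : Ar 𝒮 R) (e : ∀ v X, R v X ↔ R' v X) :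
    Ar 𝒮 R' := by
  have : R = R' := by
    funext v X
    exact propext (e v X)
  rwa [← this]

lemma Ar.ex {P : (ℕ → N) → Set N → N → Prop}
    (h : Ar 𝒮 (fun w X => P (fun i => w (i + 1)) X (w 0))) : Ar 𝒮 (fun v X => ∃ a, P v X a) :=
  Ar.ex' h

lemma Ar.or {R R' : (ℕ → N) → Set N → Prop} (h : Ar 𝒮 R) (h' : Ar 𝒮 R') :
    Ar 𝒮 (fun v X => R v X ∨ R' v X) :=
  (h.not.and h'.not).not.congr fun v X => by tauto

lemma Ar.imp {R R' : (ℕ → N) → Set N → Prop} (h : Ar 𝒮 R) (h' : Ar 𝒮 R') :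
    Ar 𝒮 (fun v X => R v X → R' v X) :=
  (h.and h'.not).not.congr fun v X => by tauto

lemma Ar.iff {R R' : (ℕ → N) → Set N → Prop} (h : Ar 𝒮 R) (h' : Ar 𝒮 R') :
    Ar 𝒮 (fun v X => (R v X ↔ R' v X)) :=
  ((h.imp h').and (h'.imp h)).congr fun v X => by tauto

lemma Ar.all {P : (ℕ → N) → Set N → N → Prop}
    (h : Ar 𝒮 (fun w X => P (fun i => w (i + 1)) X (w 0))) : Ar 𝒮 (fun v X => ∀ a, P v X a) :=
  (Ar.ex (P := fun v X a => ¬ P v X a) h.not).not.congr fun v X => by simp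

lemma Ar.const (p : Prop) : Ar 𝒮 (fun _ _ => p) := by
  by_cases hp : p
  · exact (Ar.eq (TmF.const 0) (TmF.const 0)).congr fun v X => by simp [hp]
  · exact (Ar.eq (TmF.const 0) (TmF.const 0)).not.congr fun v X => by simp [hp]

lemma Ar.ne {s t : (ℕ → N) → N} (hs : TmF s) (ht : TmF t) : Ar 𝒮 (fun v _ => s v ≠ t v) :=
  (Ar.eq hs ht).not

lemma Ar.mono {𝒯 : Set (Set N)} {R : (ℕ → N) → Set N → Prop} (h : Ar 𝒮 R)
    (hsub : 𝒮 ⊆ 𝒯) : Ar 𝒯 R := by
  induction h with
  | eq hs ht => exact .eq hs ht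
  | lt hs ht => exact .lt hs ht
  | memP hY ht => exact .memP (hsub hY) ht
  | memX ht => exact .memX ht
  | not _ ih => exact .not ih
  | and _ _ ih ih' => exact .and ih ih'
  | ex' _ ih => exact .ex' ih

/-! ### substitution -/

lemma TmF.subst {t : (ℕ → N) → N} (ht : TmF t) {ρ : ℕ → (ℕ → N) → N} (hρ : ∀ i, TmF (ρ i)) :
    TmF (fun v => t (fun i => ρ i v)) := by
  induction ht with
  | var i => exact hρ i
  | const c => exact .const c
  | add _ _ ih ih' => exact .add ih ih'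
  | mul _ _ ih ih' => exact .mul ih ih'

lemma Ar.subst {R : (ℕ → N) → Set N → Prop} (h : Ar 𝒮 R) :
    ∀ {ρ : ℕ → (ℕ → N) → N}, (∀ i, TmF (ρ i)) → Ar 𝒮 (fun v X => R (fun i => ρ i v) X) := by
  induction h with
  | eq hs ht => intro ρ hρ; exact .eq (hs.subst hρ) (ht.subst hρ)
  | lt hs ht => intro ρ hρ; exact .lt (hs.subst hρ) (ht.subst hρ)
  | memP hY ht => intro ρ hρ; exact .memP hY (ht.subst hρ)
  | memX ht => intro ρ hρ; exact .memX (ht.subst hρ)
  | not _ ih => intro ρ hρ; exact .not (ih hρ)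
  | and _ _ ih ih' => intro ρ hρ; exact .and (ih hρ) (ih' hρ)
  | @ex' R _ ih =>
    intro ρ hρ
    let ρ' : ℕ → (ℕ → N) → N := fun i w =>
      Nat.casesOn i (w 0) (fun j => ρ j (fun k => w (k + 1)))
    have hρ' : ∀ i, TmF (ρ' i) := by
      intro i
      cases i with
      | zero => exact .var 0
      | succ j => exact (hρ j).subst (fun k => .var (k + 1))
    refine Ar.congr (Ar.ex' (ih hρ')) fun v X => ?_
    have e : ∀ a : N, (fun i => ρ' i (cons a v)) = cons a (fun i => ρ i v) := by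
      intro a
      funext i
      cases i <;> rfl
    constructor
    · rintro ⟨a, ha⟩
      refine ⟨a, ?_⟩
      rw [e] at ha
      exact ha
    · rintro ⟨a, ha⟩
      refine ⟨a, ?_⟩
      rw [e]
      exact ha

/-- weakening by one variable -/
lemma Ar.up {R : (ℕ → N) → Set N → Prop} (h : Ar 𝒮 R) :
    Ar 𝒮 (fun w X => R (fun i => w (i + 1)) X) :=
  h.subst (ρ := fun i w => w (i + 1)) (fun i => .var (i + 1))

/-- evaluation of the variable `0` at a term -/
lemma Ar.inst {R : (ℕ → N) → Set N → Prop} (h : Ar 𝒮 R) {t : (ℕ → N) → N} (ht : TmF t) :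
    Ar 𝒮 (fun v X => R (cons (t v) v) X) := by
  let ρ : ℕ → (ℕ → N) → N := fun i v => Nat.casesOn i (t v) (fun j => v j)
  have hρ : ∀ i, TmF (ρ i) := by
    intro i
    cases i with
    | zero => exact ht
    | succ j => exact .var j
  refine (h.subst hρ).congr fun v X => ?_
  have : (fun i => ρ i v) = cons (t v) v := by
    funext i
    cases i <;> rfl
  rw [this]

lemma Ar.substX {R : (ℕ → N) → Set N → Prop} (h : Ar 𝒮 R) :
    ∀ {ρ : ℕ → (ℕ → N) → N} {Q : N → (ℕ → N) → Set N → Prop}, (∀ i, TmF (ρ i)) →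
      Ar 𝒮 (fun w X => Q (w 0) (fun i => w (i + 1)) X) →
      Ar 𝒮 (fun v X => R (fun i => ρ i v) {y | Q y v X}) := by
  induction h with
  | eq hs ht => intro ρ Q hρ hQ; exact .eq (hs.subst hρ) (ht.subst hρ)
  | lt hs ht => intro ρ Q hρ hQ; exact .lt (hs.subst hρ) (ht.subst hρ)
  | memP hY ht => intro ρ Q hρ hQ; exact .memP hY (ht.subst hρ)
  | memX ht =>
    intro ρ Q hρ hQ
    exact hQ.inst (ht.subst hρ)
  | not _ ih => intro ρ Q hρ hQ; exact .not (ih hρ hQ)
  | and _ _ ih ih' => intro ρ Q hρ hQ; exact .and (ih hρ hQ) (ih' hρ hQ)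
  | @ex' R _ ih =>
    intro ρ Q hρ hQ
    let ρ' : ℕ → (ℕ → N) → N := fun i w =>
      Nat.casesOn i (w 0) (fun j => ρ j (fun k => w (k + 1)))
    have hρ' : ∀ i, TmF (ρ' i) := by
      intro i
      cases i with
      | zero => exact .var 0
      | succ j => exact (hρ j).subst (fun k => .var (k + 1))
    let κ : ℕ → (ℕ → N) → N := fun i u =>
      Nat.casesOn i (u 0) (fun j => u (j + 2))
    have hκ : ∀ i, TmF (κ i) := by
      intro i
      cases i with
      | zero => exact .var 0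
      | succ j => exact .var (j + 2)
    have hQ' : Ar 𝒮 (fun u X => Q (u 0) (fun i => u (i + 2)) X) := hQ.subst hκ
    refine Ar.congr (Ar.ex' (ih (Q := fun y w X => Q y (fun i => w (i + 1)) X) hρ' hQ'))
      fun v X => ?_
    have e : ∀ a : N, (fun i => ρ' i (cons a v)) = cons a (fun i => ρ i v) := by
      intro a
      funext i
      cases i <;> rfl
    constructor
    · rintro ⟨a, ha⟩
      refine ⟨a, ?_⟩
      rw [e] at ha
      exact ha
    · rintro ⟨a, ha⟩
      refine ⟨a, ?_⟩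
      rw [e]
      exact ha

/-- a definable set for the set variable -/
lemma Ar.setX {R : (ℕ → N) → Set N → Prop} (h : Ar 𝒮 R) {Q : N → (ℕ → N) → Set N → Prop}
    (hQ : Ar 𝒮 (fun w X => Q (w 0) (fun i => w (i + 1)) X)) :
    Ar 𝒮 (fun v X => R v {y | Q y v X}) :=
  h.substX (ρ := fun i v => v i) (fun i => .var i) hQ

lemma Tm.tmF {n : ℕ} (τ : Tm n) {t : Fin n → (ℕ → N) → N} (ht : ∀ i, TmF (t i)) :
    TmF (fun v => τ.eval (fun i => t i v)) := by
  induction τ with
  | var i => exact ht i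
  | zero => exact .const 0
  | one => exact .const 1
  | add _ _ ih ih' => exact .add ih ih'
  | mul _ _ ih ih' => exact .mul ih ih'

/-- Satisfaction of an arithmetical formula at terms and at definable sets is arithmetical. -/
lemma Ar.sat (𝒯 : Set (Set N)) {n m : ℕ} (φ : Fml n m) (hφ : φ.Arith) :
    ∀ {t : Fin n → (ℕ → N) → N} {Q : Fin m → N → (ℕ → N) → Set N → Prop}, (∀ i, TmF (t i)) →
      (∀ j, Ar 𝒮 (fun w X => Q j (w 0) (fun i => w (i + 1)) X)) →
      Ar 𝒮 (fun v X => φ.Sat 𝒯 (fun i => t i v) (fun j => {y | Q j y v X})) := by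
  induction φ with
  | eq σ τ => intro t Q ht hQ; exact .eq (σ.tmF ht) (τ.tmF ht)
  | lt σ τ => intro t Q ht hQ; exact .lt (σ.tmF ht) (τ.tmF ht)
  | mem τ j =>
    intro t Q ht hQ
    exact (hQ j).inst (τ.tmF ht)
  | neg φ ih => intro t Q ht hQ; exact .not (ih hφ ht hQ)
  | and φ ψ ih ih' => intro t Q ht hQ; exact .and (ih hφ.1 ht hQ) (ih' hφ.2 ht hQ)
  | exS φ ih => exact absurd hφ (by simp [Fml.Arith])
  | @exN n m φ ih =>
    intro t Q ht hQ
    let t' : Fin (n + 1) → (ℕ → N) → N := fun i w =>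
      Fin.cases (motive := fun _ => N) (w 0) (fun j => t j (fun k => w (k + 1))) i
    have ht' : ∀ i, TmF (t' i) := by
      intro i
      refine Fin.cases ?_ (fun j => ?_) i
      · exact .var 0
      · exact (ht j).subst (fun k => .var (k + 1))
    let κ : ℕ → (ℕ → N) → N := fun i u =>
      Nat.casesOn i (u 0) (fun j => u (j + 2))
    have hκ : ∀ i, TmF (κ i) := by
      intro i
      cases i with
      | zero => exact .var 0
      | succ j => exact .var (j + 2)
    have hQ' : ∀ j, Ar 𝒮 (fun u X => Q j (u 0) (fun i => u (i + 2)) X) := fun j =>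
      (hQ j).subst hκ
    refine Ar.congr (Ar.ex' (ih hφ (Q := fun j y w X => Q j y (fun i => w (i + 1)) X) ht' hQ'))
      fun v X => ?_
    have e : ∀ a : N, (fun i => t' i (cons a v)) = (Fin.cons a (fun i => t i v) : Fin (n + 1) → N) := by
      intro a
      funext i
      refine Fin.cases ?_ (fun j => ?_) i <;> rfl
    constructor
    · rintro ⟨a, ha⟩
      refine ⟨a, ?_⟩
      rw [e] at ha
      exact ha
    · rintro ⟨a, ha⟩
      refine ⟨a, ?_⟩
      rw [e]
      exact ha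

/-! ### renaming of formulas -/

/-- Renaming of the variables of a term. -/
def Tm.ren {n n' : ℕ} (f : Fin n → Fin n') : Tm n → Tm n'
  | .var i => .var (f i)
  | .zero => .zero
  | .one => .one
  | .add s t => .add (s.ren f) (t.ren f)
  | .mul s t => .mul (s.ren f) (t.ren f)

/-- The renaming under a quantifier. -/
def liftF {n n' : ℕ} (f : Fin n → Fin n') : Fin (n + 1) → Fin (n' + 1) :=
  Fin.cons 0 (fun i => (f i).succ)

/-- Renaming of the variables of a formula. -/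
def Fml.ren : {n m n' m' : ℕ} → (Fin n → Fin n') → (Fin m → Fin m') → Fml n m → Fml n' m'
  | _, _, _, _, f, _, .eq s t => .eq (s.ren f) (t.ren f)
  | _, _, _, _, f, _, .lt s t => .lt (s.ren f) (t.ren f)
  | _, _, _, _, f, g, .mem t X => .mem (t.ren f) (g X)
  | _, _, _, _, f, g, .neg φ => .neg (φ.ren f g)
  | _, _, _, _, f, g, .and φ ψ => .and (φ.ren f g) (ψ.ren f g)
  | _, _, _, _, f, g, .exN φ => .exN (φ.ren (liftF f) g)
  | _, _, _, _, f, g, .exS φ => .exS (φ.ren f (liftF g))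

lemma Tm.eval_ren {n n' : ℕ} (f : Fin n → Fin n') (τ : Tm n) (v : Fin n' → N) :
    (τ.ren f).eval v = τ.eval (fun i => v (f i)) := by
  induction τ with
  | var i => rfl
  | zero => rfl
  | one => rfl
  | add _ _ ih ih' => simp only [Tm.ren, Tm.eval, ih, ih']
  | mul _ _ ih ih' => simp only [Tm.ren, Tm.eval, ih, ih']

lemma cons_liftF {α : Type} {n n' : ℕ} (f : Fin n → Fin n') (a : α) (v : Fin n' → α) :
    (fun i => (Fin.cons a v : Fin (n' + 1) → α) (liftF f i)) = Fin.cons a (fun i => v (f i)) := by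
  funext i
  refine Fin.cases ?_ (fun j => ?_) i <;> rfl

lemma Fml.arith_ren {n m n' m' : ℕ} (f : Fin n → Fin n') (g : Fin m → Fin m') (φ : Fml n m)
    (h : φ.Arith) : (φ.ren f g).Arith := by
  induction φ generalizing n' m' with
  | eq s t => trivial
  | lt s t => trivial
  | mem t X => trivial
  | neg φ ih => exact ih f g h
  | and φ ψ ih ih' => exact ⟨ih f g h.1, ih' f g h.2⟩
  | exN φ ih => exact ih (liftF f) g h
  | exS φ ih => exact absurd h (by simp [Fml.Arith])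

lemma Fml.sat_ren (𝒯 : Set (Set N)) {n m n' m' : ℕ} (f : Fin n → Fin n') (g : Fin m → Fin m')
    (φ : Fml n m) (v : Fin n' → N) (V : Fin m' → Set N) :
    (φ.ren f g).Sat 𝒯 v V ↔ φ.Sat 𝒯 (fun i => v (f i)) (fun j => V (g j)) := by
  induction φ generalizing n' m' with
  | eq s t => simp only [Fml.ren, Fml.Sat, Tm.eval_ren]
  | lt s t => simp only [Fml.ren, Fml.Sat, Tm.eval_ren]
  | mem t X => simp only [Fml.ren, Fml.Sat, Tm.eval_ren]
  | neg φ ih => simp only [Fml.ren, Fml.Sat, ih]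
  | and φ ψ ih ih' => simp only [Fml.ren, Fml.Sat, ih, ih']
  | exN φ ih => simp only [Fml.ren, Fml.Sat, ih, cons_liftF]
  | exS φ ih => simp only [Fml.ren, Fml.Sat, ih, cons_liftF]

/-! ### from arithmetical relations to formulas -/

/-- `t` is given by a term whose variables are variables of the environment or constants. -/
def TmRep (t : (ℕ → N) → N) : Prop :=
  ∃ (n : ℕ) (τ : Tm n) (e : Fin n → ℕ ⊕ N), ∀ v : ℕ → N,
    τ.eval (fun i => Sum.elim v id (e i)) = t v

lemma elim_castAdd {n n' : ℕ} (e : Fin n → ℕ ⊕ N) (e' : Fin n' → ℕ ⊕ N) (v : ℕ → N) :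
    (fun i => Sum.elim v id ((Fin.append e e') (Fin.castAdd n' i))) =
      fun i => Sum.elim v id (e i) := by
  funext i
  rw [Fin.append_left]

lemma elim_natAdd {n n' : ℕ} (e : Fin n → ℕ ⊕ N) (e' : Fin n' → ℕ ⊕ N) (v : ℕ → N) :
    (fun i => Sum.elim v id ((Fin.append e e') (Fin.natAdd n i))) =
      fun i => Sum.elim v id (e' i) := by
  funext i
  rw [Fin.append_right]

lemma TmF.rep {t : (ℕ → N) → N} (ht : TmF t) : TmRep t := by
  induction ht with
  | var i => exact ⟨1, .var 0, fun _ => Sum.inl i, fun v => rfl⟩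
  | const c => exact ⟨1, .var 0, fun _ => Sum.inr c, fun v => rfl⟩
  | add _ _ ih ih' =>
    obtain ⟨n, τ, e, h⟩ := ih
    obtain ⟨n', τ', e', h'⟩ := ih'
    refine ⟨n + n', .add (τ.ren (Fin.castAdd n')) (τ'.ren (Fin.natAdd n)), Fin.append e e',
      fun v => ?_⟩
    simp only [Tm.eval, Tm.eval_ren, elim_castAdd, elim_natAdd, h, h']
  | mul _ _ ih ih' =>
    obtain ⟨n, τ, e, h⟩ := ih
    obtain ⟨n', τ', e', h'⟩ := ih'
    refine ⟨n + n', .mul (τ.ren (Fin.castAdd n')) (τ'.ren (Fin.natAdd n)), Fin.append e e',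
      fun v => ?_⟩
    simp only [Tm.eval, Tm.eval_ren, elim_castAdd, elim_natAdd, h, h']

/-- `R` is given by a formula; the set variable `0` is the set variable of `R`. -/
def ArRep (𝒮 : Set (Set N)) (R : (ℕ → N) → Set N → Prop) : Prop :=
  ∃ (n m : ℕ) (φ : Fml n (m + 1)) (e : Fin n → ℕ ⊕ N) (V : Fin m → Set N), φ.Arith ∧
    (∀ j, V j ∈ 𝒮) ∧ ∀ (𝒯 : Set (Set N)) (v : ℕ → N) (X : Set N),
      φ.Sat 𝒯 (fun i => Sum.elim v id (e i)) (Fin.cons X V) ↔ R v X

/-- new environment map after binding the variable `0` -/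
def eTail (a : ℕ ⊕ N) : ℕ ⊕ N :=
  match a with
  | Sum.inl 0 => Sum.inl 0
  | Sum.inl (k + 1) => Sum.inl k
  | Sum.inr c => Sum.inr c

/-- renaming which sends the occurrences of the variable `0` to the bound variable -/
def eRen {n : ℕ} (e : Fin n → ℕ ⊕ N) (i : Fin n) : Fin (n + 1) :=
  match e i with
  | Sum.inl 0 => 0
  | _ => i.succ

lemma eRen_spec {n : ℕ} (e : Fin n → ℕ ⊕ N) (a : N) (v : ℕ → N) :
    (fun i => (Fin.cons a (fun i => Sum.elim v id (eTail (e i))) : Fin (n + 1) → N) (eRen e i)) =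
      fun i => Sum.elim (cons a v) id (e i) := by
  funext i
  unfold eRen eTail
  rcases h : e i with k | c
  · rcases k with _ | k
    · rfl
    · simp [h]
  · simp [h]

lemma Ar.rep {R : (ℕ → N) → Set N → Prop} (h : Ar 𝒮 R) : ArRep 𝒮 R := by
  induction h with
  | eq hs ht =>
    obtain ⟨n, τ, e, h⟩ := hs.rep
    obtain ⟨n', τ', e', h'⟩ := ht.rep
    refine ⟨n + n', 0, .eq (τ.ren (Fin.castAdd n')) (τ'.ren (Fin.natAdd n)), Fin.append e e',
      Fin.elim0, trivial, fun j => j.elim0, fun 𝒯 v X => ?_⟩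
    simp only [Fml.Sat, Tm.eval_ren, elim_castAdd, elim_natAdd, h, h']
  | lt hs ht =>
    obtain ⟨n, τ, e, h⟩ := hs.rep
    obtain ⟨n', τ', e', h'⟩ := ht.rep
    refine ⟨n + n', 0, .lt (τ.ren (Fin.castAdd n')) (τ'.ren (Fin.natAdd n)), Fin.append e e',
      Fin.elim0, trivial, fun j => j.elim0, fun 𝒯 v X => ?_⟩
    simp only [Fml.Sat, Tm.eval_ren, elim_castAdd, elim_natAdd, h, h']
  | @memP t Y hY ht =>
    obtain ⟨n, τ, e, h⟩ := ht.rep
    refine ⟨n, 1, .mem τ 1, e, fun _ => Y, trivial, fun _ => hY, fun 𝒯 v X => ?_⟩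
    simp only [Fml.Sat, h]
    rfl
  | memX ht =>
    obtain ⟨n, τ, e, h⟩ := ht.rep
    refine ⟨n, 0, .mem τ 0, e, Fin.elim0, trivial, fun j => j.elim0, fun 𝒯 v X => ?_⟩
    simp only [Fml.Sat, h]
    rfl
  | not _ ih =>
    obtain ⟨n, m, φ, e, V, ha, hV, hs⟩ := ih
    exact ⟨n, m, .neg φ, e, V, ha, hV, fun 𝒯 v X => by simp only [Fml.Sat, hs]⟩
  | and _ _ ih ih' =>
    obtain ⟨n, m, φ, e, V, ha, hV, hs⟩ := ih
    obtain ⟨n', m', φ', e', V', ha', hV', hs'⟩ := ih'
    let g : Fin (m + 1) → Fin (m + m' + 1) := liftF (Fin.castAdd m')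
    let g' : Fin (m' + 1) → Fin (m + m' + 1) := liftF (Fin.natAdd m)
    refine ⟨n + n', m + m', .and (φ.ren (Fin.castAdd n') g) (φ'.ren (Fin.natAdd n) g'),
      Fin.append e e', Fin.append V V', ⟨Fml.arith_ren _ _ _ ha, Fml.arith_ren _ _ _ ha'⟩,
      fun j => ?_, fun 𝒯 v X => ?_⟩
    · refine Fin.addCases (fun i => ?_) (fun i => ?_) j
      · rw [Fin.append_left]; exact hV i
      · rw [Fin.append_right]; exact hV' i
    · have e1 : (fun j => (Fin.cons X (Fin.append V V') : Fin (m + m' + 1) → Set N) (g j)) =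
          Fin.cons X V := by
        rw [cons_liftF]
        congr 1
        funext i
        rw [Fin.append_left]
      have e2 : (fun j => (Fin.cons X (Fin.append V V') : Fin (m + m' + 1) → Set N) (g' j)) =
          Fin.cons X V' := by
        rw [cons_liftF]
        congr 1
        funext i
        rw [Fin.append_right]
      simp only [Fml.Sat, Fml.sat_ren, elim_castAdd, elim_natAdd, e1, e2, hs, hs']
  | @ex' R _ ih =>
    obtain ⟨n, m, φ, e, V, ha, hV, hs⟩ := ih
    refine ⟨n, m, .exN (φ.ren (eRen e) id), fun i => eTail (e i), V, Fml.arith_ren _ _ _ ha, hV,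
      fun 𝒯 v X => ?_⟩
    simp only [Fml.Sat, Fml.sat_ren, eRen_spec, id]
    exact exists_congr fun a => hs 𝒯 (cons a v) X

/-- Comprehension for arithmetical relations. -/
theorem ACA0.comp (h : ACA0 𝒮) {R : (ℕ → N) → Set N → Prop} (hR : Ar 𝒮 R) (v : ℕ → N)
    {X : Set N} (hX : X ∈ 𝒮) : {x : N | R (cons x v) X} ∈ 𝒮 := by
  obtain ⟨n, m, φ, e, V, ha, hV, hs⟩ := hR.rep
  have key := h.comprehension n (m + 1) (φ.ren (eRen e) id) (Fml.arith_ren _ _ _ ha)
    (fun i => Sum.elim v id (eTail (e i))) (Fin.cons X V) (by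
      intro i
      refine Fin.cases ?_ (fun j => ?_) i
      · exact hX
      · exact hV j)
  convert key using 1
  ext x
  simp only [Set.mem_ofPred_eq, Fml.sat_ren, eRen_spec, id]
  exact (hs 𝒮 (cons x v) X).symm

/-- Arithmetical transfinite recursion for arithmetical relations. -/
theorem ATR0.iter (h : ATR0 𝒮) {R : (ℕ → N) → Set N → Prop} (hR : Ar 𝒮 R) (v : ℕ → N)
    {W : Set N} (hW : W ∈ 𝒮) (hwo : WO 𝒮 W) :
    ∃ Y ∈ 𝒮, ∀ y : N, y ∈ Y ↔ ∃ k j : N, y = pr k j ∧ j ∈ fld W ∧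
      R (cons k v) (cut W Y j) := by
  obtain ⟨n, m, φ, e, V, ha, hV, hs⟩ := hR.rep
  obtain ⟨Y, hY, key⟩ := h.2 n m (φ.ren (eRen e) id) (Fml.arith_ren _ _ _ ha)
    (fun i => Sum.elim v id (eTail (e i))) V hV W hW hwo
  refine ⟨Y, hY, fun y => (key y).trans ?_⟩
  refine exists_congr fun k => exists_congr fun j => ?_
  simp only [Fml.sat_ren, eRen_spec, id]
  rw [hs 𝒮 (cons k v) (cut W Y j)]

end ar

end Pool.Agent.Lib.MP_7de92b_lc
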