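import Pool.Agent.Lib.MP_7de92b_lc.Mg.G001

/-!
# T2b: comprehension for formulas and for arithmetical relations
-/

set_option autoImplicit false
set_option linter.unusedSectionVars false

namespace Pool.Agent.Lib.MP_7de92b_lc

section

variable {N : Type} [CommSemiring N] [LinearOrder N] [IsStrictOrderedRing N] [Ari N]
  {𝒮 : Set (Set N)}

theorem ACA0.mod (h : ACA0 𝒮) : Mod 𝒮 where
  ne := ⟨_, h.comprehension 0 0 (.eq .zero .zero) trivial Fin.elim0 Fin.elim0
    (fun i => i.elim0)⟩
  ind := h.induction
  comp := fun hR v _ hX => h.comp hR v hX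

theorem Mod.aca0 (h : Mod 𝒮) : ACA0 𝒮 where
  succ_ne_zero := fun n hn => by
    have h1 : (0 : N) < n + 1 := (Ari.lt_succ' 0 n).2 (Ari.zero_le' n)
    exact absurd hn h1.ne'
  succ_inj := fun m n hmn => add_right_cancel hmn
  add_zero := fun m => _root_.add_zero m
  add_succ := fun m n => (add_assoc m n 1).symm
  mul_zero := fun m => MulZeroClass.mul_zero m
  mul_succ := fun m n => by rw [mul_add, mul_one]
  not_lt_zero := fun m => not_lt.2 (Ari.zero_le' m)
  lt_succ := fun m n => (Ari.lt_succ' m n).trans le_iff_lt_or_eq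
  induction := h.ind
  comprehension := fun n m φ hφ v V hV => by
    obtain ⟨X, hX⟩ := h.ne
    have key := Ar.sat (𝒮 := 𝒮) 𝒮 φ hφ
      (t := fun i w => Fin.cases (motive := fun _ => N) (w 0) (fun j => v j) i)
      (Q := fun j y _ _ => y ∈ V j)
      (by
        intro i
        refine Fin.cases ?_ (fun j => ?_) i
        · exact .var 0
        · exact .const (v j))
      (fun j => Ar.memP (hV j) (.var 0))
    exact h.comp key (fun _ => 0) X hX

end

end Pool.Agent.Lib.MP_7de92b_lc
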