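import Pool.Agent.Lib.MP_7de92b_lc.Mg.G002

/-!
# T17: existence of the ancestor relation and of the fixed point
-/

set_option autoImplicit false
set_option linter.unusedSectionVars false

namespace Pool.Agent.Lib.MP_7de92b_lc

section

variable {N : Type} [CommSemiring N] [LinearOrder N] [IsStrictOrderedRing N] [Ari N]
  {𝒮 : Set (Set N)}

/-- T12b -/
theorem exists_anc (hA : ATR0 𝒮) (hM : Mod 𝒮) : ∃ B ∈ 𝒮, AncRec B := by
  obtain ⟨X, hX, hXe⟩ := cov hA hM (Θ := fun z X => ∃ t s, z = pr t s ∧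
    (t = s ∨ ∃ s' e, s = nx s' e ∧ pr t s' ∈ X)) (by
      refine Ar.ex (Ar.ex (Ar.and ?_ (Ar.or ?_ (Ar.ex (Ar.ex (Ar.and ?_ ?_))))))
      · exact .eq (.var 2) (.pr (.var 1) (.var 0))
      · exact .eq (.var 1) (.var 0)
      · exact .eq (.var 2) (.nx (.var 1) (.var 0))
      · exact Ar.memX (.pr (.var 3) (.var 1))) (by
      intro z X X' hXX
      refine exists_congr fun t => exists_congr fun s => and_congr_right fun hz => ?_
      refine or_congr_right (exists_congr fun s' => exists_congr fun e =>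
        and_congr_right fun hs => ?_)
      apply hXX
      subst hz hs
      exact pr_lt_pr (add_lt_add_right (lt_nx_left s' e) t))
  refine ⟨X, hX, fun t s => ?_⟩
  rw [hXe]
  constructor
  · rintro ⟨t', s', he, h⟩
    rw [pr_inj] at he
    obtain ⟨rfl, rfl⟩ := he
    exact h
  · intro h
    exact ⟨t, s, rfl, h⟩

/-- the join of the base, the tree and the ancestor relation -/
def J3 (A B X : Set N) : Set N :=
  {x | (∃ y, x = pr y 0 ∧ y ∈ A) ∨ (∃ y, x = pr y (num 1) ∧ y ∈ X) ∨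
    (∃ y, x = pr y (num 2) ∧ y ∈ B)}

lemma num_one_ne : (num 1 : N) ≠ 0 := (num_pos (by norm_num)).ne'

lemma num_two_ne : (num 2 : N) ≠ 0 := (num_pos (by norm_num)).ne'

lemma num_one_ne_two : (num 1 : N) ≠ num 2 := fun h => by
  have := num_inj.1 h
  omega

lemma J3_zero {A B X : Set N} {y : N} : pr y 0 ∈ J3 A B X ↔ y ∈ A := by
  constructor
  · rintro (⟨y', he, h⟩ | ⟨y', he, h⟩ | ⟨y', he, h⟩)
    · rw [pr_inj] at he
      rwa [he.1]
    · rw [pr_inj] at he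
      exact absurd he.2.symm num_one_ne
    · rw [pr_inj] at he
      exact absurd he.2.symm num_two_ne
  · intro h
    exact Or.inl ⟨y, rfl, h⟩

lemma J3_one {A B X : Set N} {y : N} : pr y (num 1) ∈ J3 A B X ↔ y ∈ X := by
  constructor
  · rintro (⟨y', he, h⟩ | ⟨y', he, h⟩ | ⟨y', he, h⟩)
    · rw [pr_inj] at he
      exact absurd he.2 num_one_ne
    · rw [pr_inj] at he
      rwa [he.1]
    · rw [pr_inj] at he
      exact absurd he.2 num_one_ne_two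
  · intro h
    exact Or.inr (Or.inl ⟨y, rfl, h⟩)

lemma J3_two {A B X : Set N} {y : N} : pr y (num 2) ∈ J3 A B X ↔ y ∈ B := by
  constructor
  · rintro (⟨y', he, h⟩ | ⟨y', he, h⟩ | ⟨y', he, h⟩)
    · rw [pr_inj] at he
      exact absurd he.2 num_two_ne
    · rw [pr_inj] at he
      exact absurd he.2.symm num_one_ne_two
    · rw [pr_inj] at he
      rwa [he.1]
  · intro h
    exact Or.inr (Or.inr ⟨y, rfl, h⟩)

lemma sec_J3_two {A B X : Set N} : sec (J3 A B X) (num 2) = B := by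
  ext y
  exact J3_two

lemma lt_add_one' (x : N) : x < x + 1 := (Ari.lt_succ' x x).2 le_rfl

lemma prec_J3 {A B X X' : Set N} {s : N} (h : ∀ y, y < s → (y ∈ X → y ∈ X')) {γ b : N}
    (hb : b < s) (hγ : γ < s) (hp : Prec (J3 A B X) γ (b + 1)) : Prec (J3 A B X') γ (b + 1) := by
  obtain ⟨b', he, h1, h2⟩ := hp
  have : b = b' := add_right_cancel he
  subst this
  refine ⟨b, rfl, J3_one.2 (h b hb (J3_one.1 h1)), ?_⟩
  rcases h2 with h2 | ⟨c, rfl, h3, h4, h5⟩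
  · exact Or.inl h2
  · have hc : c < s := (lt_add_one' c).trans hγ
    exact Or.inr ⟨c, rfl, J3_one.2 (h c hc (J3_one.1 h3)), J3_two.2 (J3_two.1 h4), h5⟩

lemma rM_J3 {A B X X' : Set N} {s : N} (h : ∀ y, y < s → (y ∈ X → y ∈ X')) {z p : N} (hz : z < s)
    (hp : RM (J3 A B X) z p) : RM (J3 A B X') z p := by
  obtain ⟨x, k, rfl, h1⟩ := hp
  have hx : x < s := (le_pr_left x k).trans_lt hz
  refine ⟨x, k, rfl, ?_⟩
  rcases h1 with ⟨rfl, hxJ, rfl⟩ | h1 | ⟨i, rfl, h1⟩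
  · refine Or.inl ⟨rfl, ?_, rfl⟩
    rcases hxJ with h2 | ⟨y, rfl, hy⟩ | h2
    · exact Or.inl h2
    · exact Or.inr (Or.inl ⟨y, rfl, h y ((le_pr_left y _).trans_lt hx) hy⟩)
    · exact Or.inr (Or.inr h2)
  · exact Or.inr (Or.inl h1)
  · refine Or.inr (Or.inr ⟨i, rfl, ?_⟩)
    rcases h1 with h1 | ⟨p', ⟨y, k, b, rfl, hb, h2⟩, rfl⟩
    · exact Or.inl h1
    · have hbs : b < s := (lt_add_one' b).trans_le ((le_pr_right _ _).trans hx.le)
      have hks : k < s := ((le_pr_right y k).trans (le_pr_left _ _)).trans_lt hx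
      refine Or.inr ⟨p', ⟨y, k, b, rfl, J3_one.2 (h b hbs (J3_one.1 hb)), ?_⟩, rfl⟩
      rcases h2 with ⟨γ, rfl, h3, h4⟩ | h2
      · exact Or.inl ⟨γ, rfl, prec_J3 h hbs ((le_pr_right _ γ).trans_lt hks) h3, h4⟩
      · exact Or.inr h2

lemma tC_J3 (hM : Mod 𝒮) {A B X X' : Set N} (hBS : B ∈ 𝒮) (hB : AncRec B) {s : N}
    (h : ∀ y, y < s → (y ∈ X ↔ y ∈ X')) (hs : TC (J3 A B X) s) : TC (J3 A B X') s := by
  unfold TC at hs ⊢
  rw [sec_J3_two] at hs ⊢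
  refine ⟨hs.1, fun z v hv => ⟨fun hv0 p hp => ?_, fun p hvp => ?_⟩⟩
  · have hz : z < s := (ent_lt hM hBS hB hv).1
    exact (hs.2 z v hv).1 hv0 p (rM_J3 (fun y hy => (h y hy).2) hz hp)
  · have hz : z < s := (ent_lt hM hBS hB hv).1
    obtain ⟨h1, h2⟩ := (hs.2 z v hv).2 p hvp
    exact ⟨rM_J3 (fun y hy => (h y hy).1) hz h1, h2⟩

/-- T12c -/
theorem exists_FP (hA : ATR0 𝒮) (hM : Mod 𝒮) {A : Set N} (hAS : A ∈ 𝒮) :
    ∃ P ∈ 𝒮, FP P ∧ sec P 0 = A := by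
  obtain ⟨B, hBS, hB⟩ := exists_anc hA hM
  have hJ : DSet 𝒮 (fun _ X => J3 A B X) := by
    refine Ar.or ?_ (Ar.or ?_ ?_)
    · exact Ar.ex (Ar.and (.eq (.var 1) (.pr (.var 0) (.const 0))) (.memP hAS (.var 0)))
    · exact Ar.ex (Ar.and (.eq (.var 1) (.pr (.var 0) (.const (num 1)))) (.memX (.var 0)))
    · exact Ar.ex (Ar.and (.eq (.var 1) (.pr (.var 0) (.const (num 2)))) (.memP hBS (.var 0)))
  obtain ⟨T, hT, hTe⟩ := cov hA hM (Θ := fun s X => TC (J3 A B X) s) (Ar.tC hJ (.var 0)) (by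
    intro s X X' h
    exact ⟨tC_J3 hM hBS hB h, tC_J3 hM hBS hB fun y hy => (h y hy).symm⟩)
  refine ⟨J3 A B T, ?_, ⟨?_, ?_⟩, ?_⟩
  · refine hM.comp' (P := fun x => (∃ y, x = pr y 0 ∧ y ∈ A) ∨ (∃ y, x = pr y (num 1) ∧ y ∈ T) ∨
      (∃ y, x = pr y (num 2) ∧ y ∈ B)) ?_
    refine Ar.or ?_ (Ar.or ?_ ?_)
    · exact Ar.ex (Ar.and (.eq (.var 1) (.pr (.var 0) (.const 0))) (.memP hAS (.var 0)))
    · exact Ar.ex (Ar.and (.eq (.var 1) (.pr (.var 0) (.const (num 1)))) (.memP hT (.var 0)))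
    · exact Ar.ex (Ar.and (.eq (.var 1) (.pr (.var 0) (.const (num 2)))) (.memP hBS (.var 0)))
  · rw [sec_J3_two]
    exact hB
  · intro s
    rw [← hTe s]
    exact J3_one
  · ext y
    exact J3_zero

end

end Pool.Agent.Lib.MP_7de92b_lc
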