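import Mathlib

/-!
# Second-order arithmetic: language, models, ACA_0, ATR_0, omega-model reflection

A model of the two-sorted language `L_2` is a type `N` with `0, 1, +, *, <` and a family `𝒮` of
subsets of `N` over which the set variables range.
-/

set_option autoImplicit false

namespace Pool.Agent.Lib.MP_7de92b_lc

/-- Number terms of `L_2` with `n` free number variables. -/
inductive Tm (n : ℕ) : Type
  | var (i : Fin n) : Tm n
  | zero : Tm n
  | one : Tm n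
  | add (s t : Tm n) : Tm n
  | mul (s t : Tm n) : Tm n

/-- Formulas of `L_2` with `n` free number variables and `m` free set variables. The bound
variable of `exN` and `exS` is the new variable `0`. -/
inductive Fml : ℕ → ℕ → Type
  | eq {n m : ℕ} (s t : Tm n) : Fml n m
  | lt {n m : ℕ} (s t : Tm n) : Fml n m
  | mem {n m : ℕ} (t : Tm n) (X : Fin m) : Fml n m
  | neg {n m : ℕ} (φ : Fml n m) : Fml n m
  | and {n m : ℕ} (φ ψ : Fml n m) : Fml n m
  | exN {n m : ℕ} (φ : Fml (n + 1) m) : Fml n m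
  | exS {n m : ℕ} (φ : Fml n (m + 1)) : Fml n m

/-- Arithmetical formulas: no set quantifiers. -/
def Fml.Arith : {n m : ℕ} → Fml n m → Prop
  | _, _, .eq _ _ => True
  | _, _, .lt _ _ => True
  | _, _, .mem _ _ => True
  | _, _, .neg φ => φ.Arith
  | _, _, .and φ ψ => φ.Arith ∧ ψ.Arith
  | _, _, .exN φ => φ.Arith
  | _, _, .exS _ => False

/-- The universal set quantifier. -/
def Fml.allS {n m : ℕ} (φ : Fml n (m + 1)) : Fml n m := .neg (.exS (.neg φ))

/-- `Σ^1_3` sentences: `∃ X ∀ Y ∃ Z θ` with `θ` arithmetical. -/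
def Sigma13 (σ : Fml 0 0) : Prop := ∃ θ : Fml 0 3, θ.Arith ∧ σ = .exS (.allS (.exS θ))

section semantics

variable {N : Type} [Zero N] [One N] [Add N] [Mul N] [LT N]

/-- Value of a term. -/
def Tm.eval {n : ℕ} (v : Fin n → N) : Tm n → N
  | .var i => v i
  | .zero => 0
  | .one => 1
  | .add s t => s.eval v + t.eval v
  | .mul s t => s.eval v * t.eval v

/-- Satisfaction; the set quantifiers range over `𝒮`. -/
def Fml.Sat (𝒮 : Set (Set N)) : {n m : ℕ} → Fml n m → (Fin n → N) → (Fin m → Set N) → Prop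
  | _, _, .eq s t, v, _ => s.eval v = t.eval v
  | _, _, .lt s t, v, _ => s.eval v < t.eval v
  | _, _, .mem t X, v, V => t.eval v ∈ V X
  | _, _, .neg φ, v, V => ¬ φ.Sat 𝒮 v V
  | _, _, .and φ ψ, v, V => φ.Sat 𝒮 v V ∧ ψ.Sat 𝒮 v V
  | _, _, .exN φ, v, V => ∃ a : N, φ.Sat 𝒮 (Fin.cons a v) V
  | _, _, .exS φ, v, V => ∃ X ∈ 𝒮, φ.Sat 𝒮 v (Fin.cons X V)

/-- The axioms of `ACA_0`. -/
structure ACA0 (𝒮 : Set (Set N)) : Prop where
  succ_ne_zero : ∀ n : N, n + 1 ≠ 0
  succ_inj : ∀ m n : N, m + 1 = n + 1 → m = n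
  add_zero : ∀ m : N, m + 0 = m
  add_succ : ∀ m n : N, m + (n + 1) = (m + n) + 1
  mul_zero : ∀ m : N, m * 0 = 0
  mul_succ : ∀ m n : N, m * (n + 1) = m * n + m
  not_lt_zero : ∀ m : N, ¬ m < 0
  lt_succ : ∀ m n : N, m < n + 1 ↔ m < n ∨ m = n
  induction : ∀ X ∈ 𝒮, (0 : N) ∈ X → (∀ n : N, n ∈ X → n + 1 ∈ X) → ∀ n : N, n ∈ X
  comprehension : ∀ (n m : ℕ) (φ : Fml (n + 1) m), φ.Arith →
    ∀ (v : Fin n → N) (V : Fin m → Set N), (∀ i, V i ∈ 𝒮) →
      {x : N | φ.Sat 𝒮 (Fin.cons x v) V} ∈ 𝒮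

/-- The pairing map `(a, b) ↦ (a + b)^2 + a`. -/
def pr (a b : N) : N := (a + b) * (a + b) + a

/-- The `k`-th set of the family coded by `C`. -/
def sec (C : Set N) (k : N) : Set N := {x | pr x k ∈ C}

/-- The sets coded by `C`; the coded omega-model `C` is the model with these sets and the same
numbers. -/
def secs (C : Set N) : Set (Set N) := {X | ∃ k, sec C k = X}

/-- The field of a coded relation. -/
def fld (W : Set N) : Set N := {i | pr i i ∈ W}

/-- `i < j` in the coded reflexive relation `W`. -/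
def wlt (W : Set N) (i j : N) : Prop := pr i j ∈ W ∧ pr j i ∉ W

/-- `W` codes a (reflexive) linear order on its field. -/
structure LinOrd (W : Set N) : Prop where
  mem_fld : ∀ i j : N, pr i j ∈ W → i ∈ fld W ∧ j ∈ fld W
  trans : ∀ i j k : N, pr i j ∈ W → pr j k ∈ W → pr i k ∈ W
  antisymm : ∀ i j : N, pr i j ∈ W → pr j i ∈ W → i = j
  total : ∀ i j : N, i ∈ fld W → j ∈ fld W → pr i j ∈ W ∨ pr j i ∈ W

/-- The graph of a function. -/
def gr (f : N → N) : Set N := {z | ∃ x, z = pr x (f x)}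

/-- `W` codes a well-order in the sense of the model. -/
def WO (𝒮 : Set (Set N)) (W : Set N) : Prop :=
  LinOrd W ∧ ¬ ∃ f : N → N, gr f ∈ 𝒮 ∧ ∀ n : N, wlt W (f (n + 1)) (f n)

/-- The part `Y^j` of `Y` below `j`. -/
def cut (W Y : Set N) (j : N) : Set N := {y | y ∈ Y ∧ ∃ m i : N, y = pr m i ∧ wlt W i j}

/-- `ATR_0`: `ACA_0` and, for every arithmetical formula `θ` (with parameters) and every
well-order `W`, the operator defined by `θ` can be iterated along `W`. -/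
def ATR0 (𝒮 : Set (Set N)) : Prop :=
  ACA0 𝒮 ∧ ∀ (n m : ℕ) (θ : Fml (n + 1) (m + 1)), θ.Arith →
    ∀ (v : Fin n → N) (V : Fin m → Set N), (∀ i, V i ∈ 𝒮) → ∀ W ∈ 𝒮, WO 𝒮 W →
      ∃ Y ∈ 𝒮, ∀ y : N, y ∈ Y ↔ ∃ k j : N, y = pr k j ∧ j ∈ fld W ∧
        θ.Sat 𝒮 (Fin.cons k v) (Fin.cons (cut W Y j) V)

/-- Omega-model reflection of `σ`: every set `X` is in a coded omega-model of `ACA_0 + σ`. -/
def Rfn (σ : Fml 0 0) (𝒮 : Set (Set N)) : Prop :=
  ∀ X ∈ 𝒮, ∃ C ∈ 𝒮, X ∈ secs C ∧ ACA0 (secs C) ∧ σ.Sat (secs C) Fin.elim0 Fin.elim0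

end semantics

end Pool.Agent.Lib.MP_7de92b_lc
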