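import Pool.Agent.Lib.MP_7de92b_lc.SectA

/-!
# T9: the sections of hierarchies
-/

set_option autoImplicit false
set_option linter.unusedSectionVars false

namespace Pool.Agent.Lib.MP_7de92b_lc

section

variable {N : Type} [CommSemiring N] [LinearOrder N] [IsStrictOrderedRing N] [Ari N]
  {P S Z Y : Set N}

lemma t10_succ_ne_zero (b : N) : b + 1 ≠ 0 := by
  have h1 := Ari.zero_le' (N := N) b
  have h2 : (0 : N) < b + 1 := add_pos_of_nonneg_of_pos h1 one_pos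
  exact h2.ne'

lemma t10_HM {b : N} (hb : pr b (num 1) ∈ P) (y k p : N) :
    HM P (pr (pr y k) (b + 1)) p ↔
      ((∃ γ, k = pr (num 1) γ ∧ Prec P γ (b + 1) ∧ p = pr y γ) ∨
        ∃ u, OM k y u ∧ p = pr u (b + 1)) := by
  constructor
  · rintro ⟨y', k', b', hx, -, h⟩
    rw [pr_inj, pr_inj] at hx
    obtain ⟨⟨rfl, rfl⟩, hbb⟩ := hx
    rw [← hbb] at h
    exact h
  · intro h
    exact ⟨y, k, b, rfl, hb, h⟩

lemma t10_mem (h : HierEq Z P Y) {b : N} (hb : pr b (num 1) ∈ P) (y k : N) :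
    y ∈ sec (sec Z (b + 1)) k ↔
      (∃ γ, k = pr (num 1) γ ∧ Prec P γ (b + 1) ∧ y ∉ sec Z γ) ∨
        ∃ u, OM k y u ∧ u ∉ sec Z (b + 1) := by
  have e1 : y ∈ sec (sec Z (b + 1)) k ↔ pr (pr y k) (b + 1) ∈ Z := Iff.rfl
  rw [e1, h]
  constructor
  · rintro (⟨x', hx, -⟩ | ⟨p, hp, hpZ⟩)
    · rw [pr_inj] at hx
      exact absurd hx.2 (t10_succ_ne_zero b)
    · rw [t10_HM hb] at hp
      rcases hp with ⟨γ, hk, hγ, rfl⟩ | ⟨u, hu, rfl⟩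
      · exact Or.inl ⟨γ, hk, hγ, hpZ⟩
      · exact Or.inr ⟨u, hu, hpZ⟩
  · rintro (⟨γ, hk, hγ, hpZ⟩ | ⟨u, hu, hpZ⟩)
    · exact Or.inr ⟨_, (t10_HM hb _ _ _).2 (Or.inl ⟨γ, hk, hγ, rfl⟩), hpZ⟩
    · exact Or.inr ⟨_, (t10_HM hb _ _ _).2 (Or.inr ⟨u, hu, rfl⟩), hpZ⟩

lemma t10_zero (h : HierEq Z P Y) {b : N} (hb : pr b (num 1) ∈ P) :
    (0 : N) ∉ sec Z (b + 1) := by
  intro h0
  have h1 : (0 : N) ∈ sec (sec Z (b + 1)) 0 := by
    show pr 0 0 ∈ sec Z (b + 1)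
    rw [pr_zero_zero]
    exact h0
  rw [t10_mem h hb] at h1
  rcases h1 with ⟨γ, hk, -⟩ | ⟨u, ⟨l, i, j, hk, -⟩, -⟩
  · exact t9_pr_num_ne_zero one_pos _ hk.symm
  · exact t9_pr_num_ne_zero two_pos _ hk.symm

theorem hier_closed (h : HierEq Z P Y) {b : N} (hb : pr b (num 1) ∈ P) :
    ClosedFam (secs (sec Z (b + 1))) := by
  apply t9_closed (t10_zero h hb)
  intro x l i j
  have e1 : pr x (pr (num 2) (pr l (pr i j))) ∈ sec Z (b + 1) ↔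
      x ∈ sec (sec Z (b + 1)) (pr (num 2) (pr l (pr i j))) := Iff.rfl
  rw [e1, t10_mem h hb]
  constructor
  · rintro (⟨γ, hk, -⟩ | hu)
    · rw [pr_inj, num_inj] at hk
      omega
    · exact hu
  · exact fun hu => Or.inr hu

lemma t10_sec (h : HierEq Z P Y) {b γ : N} (hb : pr b (num 1) ∈ P) (hγ : Prec P γ (b + 1)) :
    sec (sec Z (b + 1)) (pr (num 1) γ) = {x | x ∉ sec Z γ} := by
  ext y
  rw [t10_mem h hb]
  constructor
  · rintro (⟨γ', hk, -, hy⟩ | ⟨u, ⟨l, i, j, hk, -⟩, -⟩)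
    · rw [pr_inj] at hk
      rw [Set.mem_ofPred_eq, hk.2]
      exact hy
    · rw [pr_inj, num_inj] at hk
      omega
  · intro hy
    exact Or.inl ⟨γ, rfl, hγ, hy⟩

lemma t10_bot (h : HierEq Z P Y) : {x | x ∉ sec Z 0} = Y := by
  ext y
  have e1 : y ∈ sec Z 0 ↔ pr y 0 ∈ Z := Iff.rfl
  rw [Set.mem_ofPred_eq, e1, h]
  constructor
  · intro hn
    by_contra hy
    exact hn (Or.inl ⟨y, rfl, hy⟩)
  · rintro hy (⟨x', hx, hx'⟩ | ⟨p, ⟨y', k, b, hx, -⟩, -⟩)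
    · rw [pr_inj] at hx
      rw [← hx.1] at hx'
      exact hx' hy
    · rw [pr_inj] at hx
      exact t10_succ_ne_zero b hx.2.symm

theorem hier_base (h : HierEq Z P Y) {b : N} (hb : pr b (num 1) ∈ P) :
    Y ∈ secs (sec Z (b + 1)) := by
  refine ⟨pr (num 1) 0, ?_⟩
  rw [t10_sec h hb ⟨b, rfl, hb, Or.inl rfl⟩, t10_bot h]

theorem hier_lower (h : HierEq Z P Y) {b c : N} (hb : pr b (num 1) ∈ P) (hc : pr c (num 1) ∈ P)
    (hbc : pr (pr b c) (num 2) ∈ P) (hne : b ≠ c) :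
    {x | x ∉ sec Z (c + 1)} ∈ secs (sec Z (b + 1)) := by
  refine ⟨pr (num 1) (c + 1), ?_⟩
  rw [t10_sec h hb ⟨b, rfl, hb, Or.inr ⟨c, rfl, hc, hbc, hne⟩⟩]

end

end Pool.Agent.Lib.MP_7de92b_lc
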