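import Pool.Agent.Lib.MP_7de92b_lc.Mg.G002
import Pool.Agent.Lib.MP_7de92b_lc.SectB

/-!
# T10: a hierarchy along an ill-founded tree gives transfinite recursion
-/

set_option autoImplicit false
set_option linter.unusedSectionVars false

namespace Pool.Agent.Lib.MP_7de92b_lc

section

variable {N : Type} [CommSemiring N] [LinearOrder N] [IsStrictOrderedRing N] [Ari N]
  {𝒮 : Set (Set N)} {P Z Y W : Set N}

/-- the hierarchy of `R` along the part of `W` below `a` -/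
def Hie (W : Set N) (R : N → Set N → Prop) (a : N) (H : Set N) : Prop :=
  ∀ y, y ∈ H ↔ ∃ k j, y = pr k j ∧ wlt W j a ∧ R k (cut W H j)

lemma cut_cut (hL : LinOrd W) {H : Set N} {i j : N} (hij : wlt W i j) :
    cut W (cut W H j) i = cut W H i := by
  ext y
  constructor
  · rintro ⟨⟨hy, _⟩, h⟩
    exact ⟨hy, h⟩
  · rintro ⟨hy, m, l, rfl, hl⟩
    exact ⟨⟨hy, m, l, rfl, hL.wlt_trans hl hij⟩, m, l, rfl, hl⟩

lemma hie_cut (hL : LinOrd W) {R : N → Set N → Prop} {a j : N} {H : Set N} (h : Hie W R a H)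
    (hj : wlt W j a) : Hie W R j (cut W H j) := by
  intro y
  constructor
  · rintro ⟨hy, m, i, rfl, hi⟩
    obtain ⟨k, j', he, _, hR⟩ := (h _).1 hy
    rw [pr_inj] at he
    obtain ⟨rfl, rfl⟩ := he
    exact ⟨m, i, rfl, hi, by rwa [cut_cut hL hi]⟩
  · rintro ⟨k, i, rfl, hi, hR⟩
    rw [cut_cut hL hi] at hR
    exact ⟨(h _).2 ⟨k, i, rfl, hL.wlt_trans hi hj, hR⟩, k, i, rfl, hi⟩

lemma mem_fld' {W : Set N} {a : N} : a ∈ fld W ↔ pr a a ∈ W := Iff.rfl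

lemma Ar.mem_fld {t : (ℕ → N) → N} (hW : W ∈ 𝒮) (ht : TmF t) :
    Ar 𝒮 (fun v _ => t v ∈ fld W) :=
  (Ar.memP hW (ht.pr ht)).congr fun _ _ => Iff.rfl

lemma Ar.wlt' {s t : (ℕ → N) → N} (hW : W ∈ 𝒮) (hs : TmF s) (ht : TmF t) :
    Ar 𝒮 (fun v _ => wlt W (s v) (t v)) :=
  (Ar.memP hW (hs.pr ht)).and (Ar.memP hW (ht.pr hs)).not

lemma hie_unique (hM : Mod 𝒮) {B : Set N} (hBS : B ∈ 𝒮) (hB : AncRec B) (hW : W ∈ 𝒮)
    (hWO : WO 𝒮 W) {R : N → Set N → Prop} {a : N} {H H' : Set N} (hH : H ∈ 𝒮) (hH' : H' ∈ 𝒮)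
    (h : Hie W R a H) (h' : Hie W R a H') : H = H' := by
  by_contra hne
  have hL := hWO.1
  let A : Set N := {l | wlt W l a ∧ ∃ k, ¬ (pr k l ∈ H ↔ pr k l ∈ H')}
  have hA : A ∈ 𝒮 := by
    refine hM.comp' (P := fun l => wlt W l a ∧ ∃ k, ¬ (pr k l ∈ H ↔ pr k l ∈ H')) ?_
    refine Ar.and (Ar.wlt' hW (.var 0) (.const a)) ?_
    refine Ar.ex (Ar.not (Ar.iff ?_ ?_))
    · exact Ar.memP hH (.pr (.var 0) (.var 1))
    · exact Ar.memP hH' (.pr (.var 0) (.var 1))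
  have hAne : ∃ l, l ∈ A := by
    by_contra hno
    push Not at hno
    apply hne
    ext y
    have key : ∀ k l, wlt W l a → (pr k l ∈ H ↔ pr k l ∈ H') := by
      intro k l hl
      by_contra hc
      exact hno l ⟨hl, k, hc⟩
    constructor
    · intro hy
      obtain ⟨k, j, rfl, hj, _⟩ := (h y).1 hy
      exact (key k j hj).1 hy
    · intro hy
      obtain ⟨k, j, rfl, hj, _⟩ := (h' y).1 hy
      exact (key k j hj).2 hy
  obtain ⟨l, ⟨hla, k, hk⟩, hmin⟩ := wo_min hM hBS hB hW hWO hA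
    (fun l hl => (hL.wlt_fld hl.1).1) hAne
  apply hk
  have hcut : cut W H l = cut W H' l := by
    ext y
    constructor
    · rintro ⟨hy, m, i, rfl, hi⟩
      refine ⟨?_, m, i, rfl, hi⟩
      by_contra hc
      have hiA : i ∈ A := ⟨hL.wlt_trans hi hla, m, fun e => hc (e.1 hy)⟩
      exact hi.2 (hmin i hiA)
    · rintro ⟨hy, m, i, rfl, hi⟩
      refine ⟨?_, m, i, rfl, hi⟩
      by_contra hc
      have hiA : i ∈ A := ⟨hL.wlt_trans hi hla, m, fun e => hc (e.2 hy)⟩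
      exact hi.2 (hmin i hiA)
  constructor
  · intro hy
    obtain ⟨k', j, he, hj, hR⟩ := (h _).1 hy
    rw [pr_inj] at he
    obtain ⟨rfl, rfl⟩ := he
    exact (h' _).2 ⟨k, l, rfl, hla, by rwa [← hcut]⟩
  · intro hy
    obtain ⟨k', j, he, hj, hR⟩ := (h' _).1 hy
    rw [pr_inj] at he
    obtain ⟨rfl, rfl⟩ := he
    exact (h _).2 ⟨k, l, rfl, hla, by rwa [hcut]⟩

lemma hie_build (hM : Mod 𝒮) {B : Set N} (hBS : B ∈ 𝒮) (hB : AncRec B) (hW : W ∈ 𝒮)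
    (hWO : WO 𝒮 W) {R : N → Set N → Prop} {D : N → Prop} (hdown : ∀ i j, D j → wlt W i j → D i)
    {ℱ : Set (Set N)} (hsub : ℱ ⊆ 𝒮) (hex : ∀ j, D j → ∃ H ∈ ℱ, Hie W R j H) {X : Set N}
    (hX : ∀ y, y ∈ X ↔ ∃ k j, y = pr k j ∧ D j ∧ ∃ H ∈ ℱ, Hie W R j H ∧ R k H) :
    ∀ y, y ∈ X ↔ ∃ k j, y = pr k j ∧ D j ∧ R k (cut W X j) := by
  have hL := hWO.1
  have hcut : ∀ j, D j → ∀ H ∈ ℱ, Hie W R j H → cut W X j = H := by
    intro j hj H hH hHie
    ext y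
    constructor
    · rintro ⟨hy, m, i, rfl, hi⟩
      obtain ⟨k, j', he, hj', H', hH', hHie', hR⟩ := (hX _).1 hy
      rw [pr_inj] at he
      obtain ⟨rfl, rfl⟩ := he
      have : cut W H i = H' := by
        refine hie_unique hM hBS hB hW hWO (a := i) (R := R) ?_ (hsub hH') (hie_cut hL hHie hi)
          hHie'
        refine hM.comp' (P := fun y => y ∈ H ∧ ∃ m i', y = pr m i' ∧ wlt W i' i) ?_
        refine Ar.and (Ar.memP (hsub hH) (.var 0)) (Ar.ex (Ar.ex (Ar.and (.eq (.var 2)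
          (.pr (.var 1) (.var 0))) (Ar.wlt' hW (.var 0) (.const i)))))
      exact (hHie _).2 ⟨m, i, rfl, hi, by rwa [this]⟩
    · intro hy
      obtain ⟨m, i, rfl, hi, hR⟩ := (hHie _).1 hy
      refine ⟨?_, m, i, rfl, hi⟩
      obtain ⟨H', hH', hHie'⟩ := hex i (hdown i j hj hi)
      have : cut W H i = H' := by
        refine hie_unique hM hBS hB hW hWO (a := i) (R := R) ?_ (hsub hH') (hie_cut hL hHie hi)
          hHie'
        refine hM.comp' (P := fun y => y ∈ H ∧ ∃ m i', y = pr m i' ∧ wlt W i' i) ?_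
        refine Ar.and (Ar.memP (hsub hH) (.var 0)) (Ar.ex (Ar.ex (Ar.and (.eq (.var 2)
          (.pr (.var 1) (.var 0))) (Ar.wlt' hW (.var 0) (.const i)))))
      exact (hX _).2 ⟨m, i, rfl, hdown i j hj hi, H', hH', hHie', by rwa [← this]⟩
  intro y
  rw [hX]
  constructor
  · rintro ⟨k, j, rfl, hj, H, hH, hHie, hR⟩
    exact ⟨k, j, rfl, hj, by rwa [hcut j hj H hH hHie]⟩
  · rintro ⟨k, j, rfl, hj, hR⟩
    obtain ⟨H, hH, hHie⟩ := hex j hj
    rw [hcut j hj H hH hHie] at hR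
    exact ⟨k, j, rfl, hj, H, hH, hHie, hR⟩

lemma Ar.hie {R : N → Set N → Prop} (hR : Ar 𝒮 (fun v X => R (v 0) X)) (hW : W ∈ 𝒮)
    {Q : (ℕ → N) → Set N → Set N} (hQ : DSet 𝒮 Q) {t : (ℕ → N) → N} (ht : TmF t) :
    Ar 𝒮 (fun v X => Hie W R (t v) (Q v X)) := by
  refine Ar.all (P := fun v X y => (y ∈ Q v X ↔ ∃ k j, y = pr k j ∧ wlt W j (t v) ∧
    R k (cut W (Q v X) j))) ?_
  refine Ar.iff ?_ ?_
  · exact (hQ.subst (ρ := fun i w => w (i + 1)) (fun i => .var (i + 1))).mem (.var 0)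
  · refine Ar.ex (Ar.ex (Ar.and ?_ (Ar.and ?_ ?_)))
    · exact .eq (.var 2) (.pr (.var 1) (.var 0))
    · exact Ar.wlt' hW (.var 0) (ht.subst (ρ := fun i w => w (i + 3)) (fun i => .var (i + 3)))
    · refine hR.substX (ρ := fun i w => w (i + 1))
        (Q := fun y w X => y ∈ cut W (Q (fun i => w (i + 3)) X) (w 0)) (fun i => .var (i + 1)) ?_
      refine Ar.and ?_ ?_
      · exact (hQ.subst (ρ := fun i w => w (i + 4)) (fun i => .var (i + 4))).mem (.var 0)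
      · refine Ar.ex (Ar.ex (Ar.and ?_ ?_))
        · exact .eq (.var 2) (.pr (.var 1) (.var 0))
        · exact Ar.wlt' hW (.var 0) (.var 3)

lemma DSet.subst' {Q : (ℕ → N) → Set N → Set N} (h : DSet 𝒮 Q) (k : ℕ) :
    DSet 𝒮 (fun v X => Q (fun i => v (i + k)) X) :=
  h.subst (ρ := fun i w => w (i + k)) (fun i => .var (i + k))

theorem atr_of_path (hM : Mod 𝒮) (hP : P ∈ 𝒮) (hFP : FP P) {d : N → N} (hd : gr d ∈ 𝒮)
    (hpath : IsPath (sec P (num 1)) d) (hZ : Z ∈ 𝒮) (hY : Y ∈ 𝒮) (hH : HierEq Z P Y)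
    (hW : W ∈ 𝒮) (hWY : W ∈ secs Y) (hWO : WO 𝒮 W) {R : N → Set N → Prop}
    (hR : ∀ 𝒬 : Set (Set N), Mod 𝒬 → Y ∈ 𝒬 → Ar 𝒬 (fun v X => R (v 0) X)) :
    ∃ Y' ∈ 𝒮, ∀ y : N, y ∈ Y' ↔ ∃ k j : N, y = pr k j ∧ j ∈ fld W ∧ R k (cut W Y' j) := by
  have hL := hWO.1
  have hBS : sec P (num 2) ∈ 𝒮 := hM.secs_sub hP ⟨_, rfl⟩
  have hB : AncRec (sec P (num 2)) := hFP.1
  have hdT : ∀ n, pr (d n) (num 1) ∈ P := fun n => hpath.2.2 n
  -- the models
  have hZn : ∀ n, sec Z (d n + 1) ∈ 𝒮 := fun n => hM.secs_sub hZ ⟨_, rfl⟩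
  have hsub : ∀ n, secs (sec Z (d n + 1)) ⊆ 𝒮 := fun n => hM.secs_sub (hZn n)
  have hQ : ∀ n, Mod (secs (sec Z (d n + 1))) := fun n =>
    (hier_closed hH (hdT n)).mod hM (hsub n)
  have hYQ : ∀ n, Y ∈ secs (sec Z (d n + 1)) := fun n => hier_base hH (hdT n)
  have hWQ : ∀ n, W ∈ secs (sec Z (d n + 1)) := fun n => (hQ n).secs_sub (hYQ n) hWY
  have hstep : ∀ n, sec Z (d (n + 1) + 1) ∈ secs (sec Z (d n + 1)) := by
    intro n
    have hanc : pr (pr (d n) (d (n + 1))) (num 2) ∈ P := by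
      obtain ⟨v, hv⟩ := hpath.2.1 n
      have : pr (d n) (d (n + 1)) ∈ sec P (num 2) := by
        rw [hv, anc_nx hB]
        exact Or.inr (anc_refl hB _)
      exact this
    have hne : d n ≠ d (n + 1) := by
      obtain ⟨v, hv⟩ := hpath.2.1 n
      rw [hv]
      exact (lt_nx_left _ _).ne
    have h1 := hier_lower hH (hdT n) (hdT (n + 1)) hanc hne
    have h2 := (hQ n).comp' (P := fun x => ¬ x ∈ {x | x ∉ sec Z (d (n + 1) + 1)})
      ((Ar.memP h1 (.var 0)).not)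
    convert h2 using 1
    ext x
    simp
  -- the models contain the definable sets
  have hbuild : ∀ (n : N) (D : N → Prop), Ar (secs (sec Z (d n + 1))) (fun v _ => D (v 0)) →
      {y | ∃ k j, y = pr k j ∧ D j ∧ ∃ H ∈ secs (sec Z (d (n + 1) + 1)), Hie W R j H ∧ R k H} ∈
        secs (sec Z (d n + 1)) := by
    intro n D hD
    have hr := hR _ (hQ n) (hYQ n)
    have h2 := (hQ n).comp' (P := fun y => ∃ k j, y = pr k j ∧ D j ∧ ∃ i,
      Hie W R j (sec (sec Z (d (n + 1) + 1)) i) ∧ R k (sec (sec Z (d (n + 1) + 1)) i)) (by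
        refine Ar.ex (Ar.ex (Ar.and ?_ (Ar.and ?_ (Ar.ex (Ar.and ?_ ?_)))))
        · exact .eq (.var 2) (.pr (.var 1) (.var 0))
        · exact hD.subst (ρ := fun i w => w i) (fun i => .var i)
        · exact Ar.hie hr (hWQ n) ((DSet.const (hstep n)).sec (.var 0)) (.var 1)
        · refine hr.substX (ρ := fun i w => w (i + 2))
            (Q := fun y w X => y ∈ sec (sec Z (d (n + 1) + 1)) (w 0)) (fun i => .var (i + 2)) ?_
          exact ((DSet.const (hstep n)).sec (.var 1)).mem (.var 0))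
    convert h2 using 1
    ext y
    constructor
    · rintro ⟨k, j, rfl, hj, H, ⟨i, rfl⟩, h1, h2⟩
      exact ⟨k, j, rfl, hj, i, h1, h2⟩
    · rintro ⟨k, j, rfl, hj, i, h1, h2⟩
      exact ⟨k, j, rfl, hj, _, ⟨i, rfl⟩, h1, h2⟩
  -- the bad indices
  let A : Set N := {a | a ∈ fld W ∧ ∃ n, ¬ ∃ i, Hie W R a (sec (sec Z (d n + 1)) i)}
  have hA : A ∈ 𝒮 := by
    refine hM.comp' (P := fun a => a ∈ fld W ∧ ∃ n, ¬ ∃ i, Hie W R a
      (sec (sec Z (d n + 1)) i)) ?_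
    refine Ar.and (Ar.mem_fld hW (.var 0)) (Ar.ex (P := fun v X n => ¬ ∃ i, Hie W R (v 0)
      (sec (sec Z (d n + 1)) i)) (Ar.not (Ar.ex ?_)))
    refine Ar.fn (P := fun w X a => Hie W R (w 2) (sec (sec Z (a + 1)) (w 0))) hd (.var 1) ?_
    exact Ar.hie (hR _ hM hY) hW (((DSet.const hZ).sec ((TmF.var 0).add (.const 1))).sec
      (.var 1)) (.var 3)
  have hAe : ∀ a, a ∉ A := by
    intro a0 ha0
    obtain ⟨a, ⟨haW, n, hn⟩, hmin⟩ := wo_min hM hBS hB hW hWO hA (fun a ha => ha.1) ⟨a0, ha0⟩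
    apply hn
    have h1 := hbuild n (fun j => wlt W j a) (Ar.wlt' (hWQ n) (.var 0) (.const a))
    obtain ⟨i, hi⟩ := h1
    refine ⟨i, ?_⟩
    rw [hi]
    refine hie_build hM hBS hB hW hWO (D := fun j => wlt W j a)
      (fun i j hj hij => hL.wlt_trans hij hj) (hsub (n + 1)) ?_ (fun y => Iff.rfl)
    intro j hj
    by_contra hno
    have hjA : j ∈ A := by
      refine ⟨(hL.wlt_fld hj).1, n + 1, ?_⟩
      rintro ⟨i, hi⟩
      exact hno ⟨_, ⟨i, rfl⟩, hi⟩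
    exact hj.2 (hmin j hjA)
  have h1 := hbuild 0 (fun j => j ∈ fld W) (Ar.mem_fld (hWQ 0) (.var 0))
  refine ⟨_, hsub 0 h1, ?_⟩
  refine hie_build hM hBS hB hW hWO (D := fun j => j ∈ fld W)
    (fun i j hj hij => (hL.wlt_fld hij).1) (hsub (0 + 1)) ?_ (fun y => Iff.rfl)
  intro j hj
  by_contra hno
  apply hAe j
  refine ⟨hj, 0 + 1, ?_⟩
  rintro ⟨i, hi⟩
  exact hno ⟨_, ⟨i, rfl⟩, hi⟩

end

end Pool.Agent.Lib.MP_7de92b_lc
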