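import Pool.Agent.Lib.MP_7de92b_lc.Mg.G002

/-!
# T9: a coded model of the sentence gives a solution
-/

set_option autoImplicit false
set_option linter.unusedSectionVars false

namespace Pool.Agent.Lib.MP_7de92b_lc

section

variable {N : Type} [CommSemiring N] [LinearOrder N] [IsStrictOrderedRing N] [Ari N]
  {𝒮 : Set (Set N)} {C P : Set N}

/-- the sections chosen before `s` -/
def t13PS (B C : Set N) (s u : N) : Prop := ∃ y i r : N, u = pr y i ∧ Ent B s i r ∧ pr y r ∈ C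

/-- `r` is a correct choice for the section `k` -/
def t13Rt (B C P : Set N) (s k r : N) : Prop :=
  ∀ x : N, pr x r ∈ C ↔ ∃ p, RM P (pr x k) p ∧
    ¬ (t13PS B C s p ∨ ∃ x', p = pr x' k ∧ pr x' r ∈ C)

/-- the recursion relation -/
def t13G (B C P : Set N) (s r : N) : Prop :=
  ∀ k : N, Nxt s k → (t13Rt B C P s k r ∨ ((¬ ∃ r', t13Rt B C P s k r') ∧ r = 0))

lemma t13_arG {B : Set N} (hB : B ∈ 𝒮) (hC : C ∈ 𝒮) (hP : P ∈ 𝒮) :
    Ar 𝒮 (fun v _ => t13G B C P (v 0) (v 1)) := by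
  unfold t13G t13Rt t13PS
  repeat' first
    | exact Ar.nxt (.var _) (.var _)
    | exact Ar.ent (.const hB) (.var _) (.var _) (.var _)
    | exact Ar.rM (.const hP) (TmF.pr (.var _) (.var _)) (.var _)
    | apply Ar.ex | apply Ar.all | apply Ar.and | apply Ar.or | apply Ar.iff | apply Ar.not
    | apply Ar.imp
    | apply Ar.eq | apply Ar.lt
    | refine Ar.memP (by assumption) ?_ | apply TmF.pr | apply TmF.const | apply TmF.var

lemma t13_nxt_unique {s k k' : N} (h : Nxt s k) (h' : Nxt s k') : k = k' := by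
  rcases h with ⟨h1, h2⟩ | ⟨t, z, v, h1, h2⟩ <;> rcases h' with ⟨h3, h4⟩ | ⟨t', z', v', h3, h4⟩
  · rw [h2, h4]
  · exact absurd (h3.symm.trans h1) (nx_ne_zero _ _)
  · exact absurd (h1.symm.trans h3) (nx_ne_zero _ _)
  · rw [h1, nx_inj, pr_inj] at h3
    rw [h2, h4, h3.2.1]

lemma t13_tot (B C P : Set N) (s : N) : ∃ r, t13G B C P s r := by
  classical
  by_cases h : ∃ k, Nxt s k
  · obtain ⟨k, hk⟩ := h
    by_cases h2 : ∃ r', t13Rt B C P s k r'
    · obtain ⟨r, hr⟩ := h2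
      refine ⟨r, fun k' hk' => Or.inl ?_⟩
      rw [t13_nxt_unique hk' hk]
      exact hr
    · refine ⟨0, fun k' hk' => Or.inr ⟨?_, rfl⟩⟩
      rw [t13_nxt_unique hk' hk]
      exact h2
  · exact ⟨0, fun k hk => absurd ⟨k, hk⟩ h⟩

lemma t13_pos (k : N) : 0 ≤ k := Ari.zero_le' k

lemma t13_num_ne {i j : ℕ} (h : i ≠ j) {a b : N} : pr (num i) a ≠ pr (num j) b := by
  intro e
  rw [pr_inj, num_inj] at e
  exact h e.1

/-- a tagged number is positive -/
lemma t13_tag_pos {i : ℕ} (h : 0 < i) (a : N) : 0 < pr (num i) a :=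
  lt_of_lt_of_le (num_pos h) (le_pr_left _ _)

/-- the moves go to smaller or equal sections -/
lemma t13_move {x k p : N} (h : RM P (pr x k) p) : ∃ y i : N, p = pr y i ∧ i ≤ k := by
  obtain ⟨x', k', e, h⟩ := h
  rw [pr_inj] at e
  obtain ⟨rfl, rfl⟩ := e
  rcases h with ⟨_, _, rfl⟩ | h | ⟨i, hk, h⟩
  · exact ⟨0, 0, pr_zero_zero.symm, t13_pos _⟩
  · obtain ⟨l, i, j, hk, h⟩ := h
    have hi : i ≤ k := by
      rw [hk]
      exact ((le_pr_left i j).trans (le_pr_right l _)).trans (le_pr_right _ _)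
    have hj : j ≤ k := by
      rw [hk]
      exact ((le_pr_right i j).trans (le_pr_right l _)).trans (le_pr_right _ _)
    rcases h with ⟨y, _, rfl⟩ | ⟨_, rfl | rfl⟩ | ⟨_, rfl⟩
    · exact ⟨y, i, rfl, hi⟩
    · exact ⟨x, i, rfl, hi⟩
    · exact ⟨x, j, rfl, hj⟩
    · exact ⟨0, 0, pr_zero_zero.symm, t13_pos _⟩
  · rcases h with ⟨x', _, rfl⟩ | ⟨p', _, rfl⟩
    · refine ⟨x', i, rfl, ?_⟩
      rw [hk]
      exact le_pr_right _ _
    · exact ⟨p', k, rfl, le_rfl⟩

theorem sol_of_model (hM : Mod 𝒮) (hC : C ∈ 𝒮) (hMC : Mod (secs C)) (hP : P ∈ secs C)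
    (hFP : FP P) (hσ : ∀ Y ∈ secs C, ∃ Z ∈ secs C, HierEq Z P Y) : ∃ S ∈ 𝒮, Sol P S := by
  classical
  have hPS : P ∈ 𝒮 := by
    obtain ⟨k0, hk0⟩ := hP
    rw [← hk0]
    refine hM.comp' (P := fun x => pr x k0 ∈ C) ?_
    exact Ar.memP hC (TmF.pr (.var 0) (.const k0))
  have hB : sec P (num 2) ∈ 𝒮 := by
    refine hM.comp' (P := fun x => pr x (num 2) ∈ P) ?_
    exact Ar.memP hPS (TmF.pr (.var 0) (.const _))
  obtain ⟨B, hBdef⟩ : ∃ B, B = sec P (num 2) := ⟨_, rfl⟩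
  rw [← hBdef] at hB
  have hBA : AncRec B := by rw [hBdef]; exact hFP.1
  obtain ⟨d, hd, hd0, hd1⟩ := recur hM hB hBA (t13_arG hB hC hPS) (t13_tot B C P)
  obtain ⟨g, hg, hdg, hent, -, hnxt, -⟩ := seq_facts hM hB hBA hd hd0
    (fun n => let ⟨v, _, h⟩ := hd1 n; ⟨v, h⟩)
  have hGg : ∀ n, t13G B C P (d n) (g n) := by
    intro n
    obtain ⟨v, hv, e⟩ := hd1 n
    rw [hdg n, nx_inj, pr_inj] at e
    rw [e.2.2]
    exact hv
  have hPSd : ∀ k u, t13PS B C (d k) u ↔ ∃ y i, u = pr y i ∧ i < k ∧ pr y (g i) ∈ C := by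
    intro k u
    constructor
    · rintro ⟨y, i, r, h1, h2, h3⟩
      rw [hent] at h2
      exact ⟨y, i, h1, h2.1, by rw [← h2.2]; exact h3⟩
    · rintro ⟨y, i, h1, h2, h3⟩
      exact ⟨y, i, g i, h1, (hent _ _ _).mpr ⟨h2, rfl⟩, h3⟩
  -- reformulation of the correct choices
  have hRt : ∀ k r, t13Rt B C P (d k) k r ↔ ∀ x : N, x ∈ sec C r ↔ ∃ p, RM P (pr x k) p ∧
      ¬ ∃ y i, p = pr y i ∧ ((i < k ∧ y ∈ sec C (g i)) ∨ (i = k ∧ y ∈ sec C r)) := by
    intro k r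
    unfold t13Rt
    refine forall_congr' fun x => ?_
    rw [mem_sec]
    refine iff_congr Iff.rfl (exists_congr fun p => and_congr_right fun _ => not_congr ?_)
    rw [hPSd]
    constructor
    · rintro (⟨y, i, h1, h2, h3⟩ | ⟨x', h1, h2⟩)
      · exact ⟨y, i, h1, Or.inl ⟨h2, h3⟩⟩
      · exact ⟨x', k, h1, Or.inr ⟨rfl, h2⟩⟩
    · rintro ⟨y, i, h1, ⟨h2, h3⟩ | ⟨rfl, h3⟩⟩
      · exact Or.inl ⟨y, i, h1, h2, h3⟩
      · exact Or.inr ⟨y, h1, h3⟩
  have hsecC : ∀ r, sec C r ∈ secs C := fun r => ⟨r, rfl⟩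
  -- existence of the correct choices
  have hex : ∀ k, ∃ r, t13Rt B C P (d k) k r := by
    intro k
    by_cases h1 : k = pr (num 1) 0
    · have hk0 : 0 < k := by rw [h1]; exact t13_tag_pos one_pos _
      have hA : {x | x ∈ P ∧ ¬ (0 : N) ∈ sec C (g 0)} ∈ secs C :=
        hMC.comp' (Ar.and (Ar.memP hP (.var 0)) (Ar.const _))
      obtain ⟨r, hr⟩ := hA
      refine ⟨r, (hRt k r).mpr fun x => ?_⟩
      rw [hr]
      constructor
      · rintro ⟨hx, h0⟩
        refine ⟨0, ⟨x, k, rfl, Or.inl ⟨h1, hx, rfl⟩⟩, ?_⟩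
        rintro ⟨y, i, e, h⟩
        obtain ⟨rfl, rfl⟩ := pr_eq_zero.mp e.symm
        rcases h with ⟨_, h⟩ | ⟨h, _⟩
        · exact h0 h
        · exact hk0.ne h
      · rintro ⟨p, ⟨x', k', e, h⟩, hn⟩
        rw [pr_inj] at e
        obtain ⟨rfl, rfl⟩ := e
        rcases h with ⟨_, hx, rfl⟩ | ⟨l, i, j, hk, _⟩ | ⟨i, hk, _⟩
        · exact ⟨hx, fun h => hn ⟨0, 0, pr_zero_zero.symm, Or.inl ⟨hk0, h⟩⟩⟩
        · exact absurd (h1.symm.trans hk) (t13_num_ne (by norm_num))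
        · exact absurd (h1.symm.trans hk) (t13_num_ne (by norm_num))
    by_cases h2 : ∃ l i j, k = pr (num 2) (pr l (pr i j))
    · obtain ⟨l, i, j, hk⟩ := h2
      have hk0 : 0 < k := by rw [hk]; exact t13_tag_pos (by norm_num) _
      have hi : i < k := by
        rw [hk]
        exact lt_of_le_of_lt ((le_pr_left i j).trans (le_pr_right l _))
          (lt_pr_right (num_pos (by norm_num)) _)
      have hj : j < k := by
        rw [hk]
        exact lt_of_le_of_lt ((le_pr_right i j).trans (le_pr_right l _))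
          (lt_pr_right (num_pos (by norm_num)) _)
      have hI := hsecC (g i)
      have hJ := hsecC (g j)
      have h0 := hsecC (g 0)
      have hA : {x | ∃ p, OM k x p ∧ ¬ ∃ y i', p = pr y i' ∧
          ((i' = i ∧ y ∈ sec C (g i)) ∨ (i' = j ∧ y ∈ sec C (g j)) ∨
            (i' = 0 ∧ y ∈ sec C (g 0)))} ∈ secs C := by
        apply hMC.comp'
        repeat' first
          | exact Ar.oM (.const _) (.var _) (.var _)
          | apply Ar.ex | apply Ar.all | apply Ar.and | apply Ar.or | apply Ar.iff | apply Ar.not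
          | apply Ar.imp | apply Ar.eq | apply Ar.lt
          | refine Ar.memP hI ?_ | refine Ar.memP hJ ?_ | refine Ar.memP h0 ?_
          | apply TmF.pr | apply TmF.const | apply TmF.var
      obtain ⟨r, hr⟩ := hA
      refine ⟨r, (hRt k r).mpr fun x => ?_⟩
      rw [Set.ext_iff.mp hr x, Set.mem_ofPred_eq]
      have hmv : ∀ p, OM k x p → ((∃ y i', p = pr y i' ∧
          ((i' = i ∧ y ∈ sec C (g i)) ∨ (i' = j ∧ y ∈ sec C (g j)) ∨
            (i' = 0 ∧ y ∈ sec C (g 0)))) ↔ ∃ y i', p = pr y i' ∧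
          ((i' < k ∧ y ∈ sec C (g i')) ∨ (i' = k ∧ y ∈ sec C r))) := by
        intro p hp
        obtain ⟨l', i1, j1, hk', hmo⟩ := hp
        rw [hk, pr_inj, pr_inj, pr_inj] at hk'
        obtain ⟨-, rfl, rfl, rfl⟩ := hk'
        have hcase : ∃ y i', p = pr y i' ∧ (i' = i ∨ i' = j ∨ i' = 0) := by
          rcases hmo with ⟨y, _, e⟩ | ⟨_, e | e⟩ | ⟨_, e⟩
          · exact ⟨y, i, e, Or.inl rfl⟩
          · exact ⟨x, i, e, Or.inl rfl⟩
          · exact ⟨x, j, e, Or.inr (Or.inl rfl)⟩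
          · exact ⟨0, 0, by rw [e, pr_zero_zero], Or.inr (Or.inr rfl)⟩
        constructor
        · rintro ⟨y, i', e, ⟨rfl, h⟩ | ⟨rfl, h⟩ | ⟨rfl, h⟩⟩
          · exact ⟨y, _, e, Or.inl ⟨hi, h⟩⟩
          · exact ⟨y, _, e, Or.inl ⟨hj, h⟩⟩
          · exact ⟨y, _, e, Or.inl ⟨hk0, h⟩⟩
        · rintro ⟨y, i', e, h⟩
          obtain ⟨y2, i2, e2, h3⟩ := hcase
          rw [e, pr_inj] at e2
          obtain ⟨rfl, rfl⟩ := e2
          have hik : i' < k := by
            rcases h3 with rfl | rfl | rfl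
            · exact hi
            · exact hj
            · exact hk0
          rcases h with ⟨_, hh⟩ | ⟨hh, _⟩
          · refine ⟨y, i', e, ?_⟩
            rcases h3 with rfl | rfl | rfl
            · exact Or.inl ⟨rfl, hh⟩
            · exact Or.inr (Or.inl ⟨rfl, hh⟩)
            · exact Or.inr (Or.inr ⟨rfl, hh⟩)
          · exact absurd hh hik.ne
      constructor
      · rintro ⟨p, hp, hn⟩
        refine ⟨p, ⟨x, k, rfl, Or.inr (Or.inl hp)⟩, ?_⟩
        rwa [← hmv p hp]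
      · rintro ⟨p, ⟨x', k', e, h⟩, hn⟩
        rw [pr_inj] at e
        obtain ⟨rfl, rfl⟩ := e
        rcases h with ⟨hk', _, _⟩ | h | ⟨i', hk', _⟩
        · exact absurd hk' h1
        · refine ⟨p, h, ?_⟩
          rwa [hmv p h]
        · exact absurd (hk.symm.trans hk') (t13_num_ne (by norm_num))
    by_cases h3 : ∃ i, k = pr (num 3) i
    · obtain ⟨i, hk⟩ := h3
      have hi : i < k := by
        rw [hk]
        exact lt_pr_right (num_pos (by norm_num)) _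
      obtain ⟨Z, ⟨r, hr⟩, hZ⟩ := hσ _ (hsecC (g i))
      refine ⟨r, (hRt k r).mpr fun x => ?_⟩
      rw [hr, hZ x]
      constructor
      · rintro (⟨x', rfl, hx'⟩ | ⟨p, hp, hpZ⟩)
        · refine ⟨pr x' i, ⟨_, k, rfl, Or.inr (Or.inr ⟨i, hk, Or.inl ⟨x', rfl, rfl⟩⟩)⟩, ?_⟩
          rintro ⟨y, i', e, h⟩
          rw [pr_inj] at e
          obtain ⟨rfl, rfl⟩ := e
          rcases h with ⟨_, h⟩ | ⟨h, _⟩
          · exact hx' h
          · exact hi.ne h
        · refine ⟨pr p k, ⟨_, k, rfl, Or.inr (Or.inr ⟨i, hk, Or.inr ⟨p, hp, rfl⟩⟩)⟩, ?_⟩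
          rintro ⟨y, i', e, h⟩
          rw [pr_inj] at e
          obtain ⟨rfl, rfl⟩ := e
          rcases h with ⟨h, _⟩ | ⟨_, h⟩
          · exact absurd h (lt_irrefl _)
          · exact hpZ h
      · rintro ⟨p, ⟨x', k', e, h⟩, hn⟩
        rw [pr_inj] at e
        obtain ⟨rfl, rfl⟩ := e
        rcases h with ⟨hk', _, _⟩ | ⟨l, i', j, hk', _⟩ | ⟨i', hk', h⟩
        · exact absurd hk' h1
        · exact absurd ⟨l, i', j, hk'⟩ h2
        · rw [hk, pr_inj] at hk'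
          obtain ⟨-, rfl⟩ := hk'
          rcases h with ⟨x', rfl, rfl⟩ | ⟨p', hp', rfl⟩
          · exact Or.inl ⟨x', rfl, fun h => hn ⟨x', i, rfl, Or.inl ⟨hi, h⟩⟩⟩
          · exact Or.inr ⟨p', hp', fun h => hn ⟨p', k, rfl, Or.inr ⟨rfl, h⟩⟩⟩
    · have hA : {x : N | ¬ (x = x)} ∈ secs C :=
        hMC.comp' (Ar.not (Ar.eq (.var 0) (.var 0)))
      obtain ⟨r, hr⟩ := hA
      refine ⟨r, (hRt k r).mpr fun x => ?_⟩
      rw [hr]
      constructor
      · intro h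
        exact absurd rfl h
      · rintro ⟨p, ⟨x', k', e, h⟩, hn⟩
        rw [pr_inj] at e
        obtain ⟨rfl, rfl⟩ := e
        rcases h with ⟨hk', _, _⟩ | ⟨l, i', j, hk', _⟩ | ⟨i', hk', h⟩
        · exact absurd hk' h1
        · exact absurd ⟨l, i', j, hk'⟩ h2
        · exact absurd ⟨i', hk'⟩ h3
  -- the choices are correct
  have hcor : ∀ k, t13Rt B C P (d k) k (g k) := by
    intro k
    rcases hGg k k ((hnxt k k).mpr rfl) with h | ⟨h, _⟩
    · exact h
    · exact absurd (hex k) h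
  refine ⟨{u | ∃ y k, u = pr y k ∧ pr y (g k) ∈ C}, ?_, ?_⟩
  · apply hM.comp'
    apply Ar.ex
    apply Ar.ex
    apply Ar.and
    · exact Ar.eq (.var 2) (TmF.pr (.var 1) (.var 0))
    · apply Ar.fn (P := fun w X a => pr (w 1) a ∈ C) hg (.var 0)
      exact Ar.memP hC (TmF.pr (.var 2) (.var 0))
  · intro z
    have hmem : ∀ y i : N, pr y i ∈ {u | ∃ y k, u = pr y k ∧ pr y (g k) ∈ C} ↔
        pr y (g i) ∈ C := by
      intro y i
      constructor
      · rintro ⟨y', i', e, h⟩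
        rw [pr_inj] at e
        obtain ⟨rfl, rfl⟩ := e
        exact h
      · intro h
        exact ⟨y, i, rfl, h⟩
    have main : ∀ x k : N, pr x k ∈ {u | ∃ y k, u = pr y k ∧ pr y (g k) ∈ C} ↔
        ∃ p, RM P (pr x k) p ∧ p ∉ {u | ∃ y k, u = pr y k ∧ pr y (g k) ∈ C} := by
      intro x k
      rw [hmem]
      have := (hRt k (g k)).mp (hcor k) x
      rw [mem_sec] at this
      rw [this]
      refine exists_congr fun p => and_congr_right fun hp => not_congr ?_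
      obtain ⟨y, i, rfl, hik⟩ := t13_move hp
      rw [hmem]
      constructor
      · rintro ⟨y', i', e, h⟩
        rw [pr_inj] at e
        obtain ⟨rfl, rfl⟩ := e
        rcases h with ⟨_, h⟩ | ⟨rfl, h⟩
        · exact h
        · exact h
      · intro h
        rcases lt_or_eq_of_le hik with h' | h'
        · exact ⟨y, i, rfl, Or.inl ⟨h', h⟩⟩
        · exact ⟨y, i, rfl, Or.inr ⟨h', by rw [← h']; exact h⟩⟩
    constructor
    · intro hz
      obtain ⟨y, k, rfl, _⟩ := id hz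
      exact (main y k).mp hz
    · rintro ⟨p, hp, hpS⟩
      obtain ⟨x, k, rfl, _⟩ := id hp
      exact (main x k).mpr ⟨p, hp, hpS⟩

end

end Pool.Agent.Lib.MP_7de92b_lc
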