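import Pool.Agent.Lib.MP_7de92b_lc.Mg.G002

/-!
# T15: the Kleene-Brouwer order of a tree without paths
-/

set_option autoImplicit false
set_option linter.unusedSectionVars false

namespace Pool.Agent.Lib.MP_7de92b_lc

section

variable {N : Type} [CommSemiring N] [LinearOrder N] [IsStrictOrderedRing N] [Ari N]
  {𝒮 : Set (Set N)} {P : Set N}

lemma kbb_nxt_unique {s n m : N} (h : Nxt s n) (h' : Nxt s m) : n = m := by
  rcases h with ⟨h1, h2⟩ | ⟨t, z, v, h1, h2⟩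
  · rcases h' with ⟨h3, h4⟩ | ⟨t, z, v, h3, h4⟩
    · rw [h2, h4]
    · exact absurd (h3.symm.trans h1) (nx_ne_zero _ _)
  · rcases h' with ⟨h3, h4⟩ | ⟨t', z', v', h3, h4⟩
    · exact absurd (h1.symm.trans h3) (nx_ne_zero _ _)
    · have h5 := nx_inj.1 (h1.symm.trans h3)
      have h6 := pr_inj.1 h5.2
      rw [h2, h4, h6.1]

lemma kbb_good_anc (hM : Mod 𝒮) {B : Set N} (hBS : B ∈ 𝒮) (hB : AncRec B) {s t : N}
    (hst : pr s t ∈ B) (ht : Good B t) : Good B s := by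
  refine ⟨?_, fun t' e h => ht.2 t' e (anc_trans hM hBS hB h hst)⟩
  rcases anc_total hM hBS hB ht.1 hst with h | h
  · exact h
  · rw [(anc_zero hB).1 h]
    exact anc_refl hB 0

lemma kbb_tc_anc (hM : Mod 𝒮) (hBS : sec P (num 2) ∈ 𝒮) (hB : AncRec (sec P (num 2)))
    {s t : N} (hst : pr s t ∈ sec P (num 2)) (ht : TC P t) : TC P s := by
  refine ⟨kbb_good_anc hM hBS hB hst ht.1, fun z v hzv => ?_⟩
  have h := ht.2 z v (ent_mono hM hBS hB hst hzv)
  refine ⟨fun hv p hp he => h.1 hv p hp (ent_mono hM hBS hB hst he), fun p hp => ?_⟩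
  exact ⟨(h.2 p hp).1, fun v' he => (h.2 p hp).2 v' (ent_mono hM hBS hB hst he)⟩

/-- two consecutive elements below a common ancestor -/
lemma kbb_step (hM : Mod 𝒮) {B : Set N} (hBS : B ∈ 𝒮) (hB : AncRec B) {s x y : N}
    (hx : pr s x ∈ B) (hy : pr s y ∈ B) (hK : KBlt B y x) :
    (∃ e, pr (nx s e) y ∈ B) ∧
      ∀ e, pr (nx s e) x ∈ B → ∃ e', e' ≤ e ∧ pr (nx s e') y ∈ B := by
  rcases hK with ⟨h1, h2⟩ | ⟨u, a, a', haa, h1, h2⟩
  · constructor
    · apply anc_child hM hBS hB hy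
      intro hsy
      subst hsy
      exact h2 (le_antisymm (anc_le hM hBS hB h1) (anc_le hM hBS hB hx))
    · intro e he
      exact ⟨e, le_rfl, anc_trans hM hBS hB he h1⟩
  · have huu : ∀ b : N, pr u (nx u b) ∈ B := fun b => (anc_nx hB).2 (Or.inr (anc_refl hB u))
    have hux : pr u x ∈ B := anc_trans hM hBS hB (huu a') h2
    have key : s = u ∨ ∃ e, pr (nx s e) x ∈ B ∧ pr (nx s e) y ∈ B := by
      by_cases hsu : s = u
      · exact Or.inl hsu
      · refine Or.inr ?_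
        rcases anc_total hM hBS hB hx hux with h | h
        · obtain ⟨e, he⟩ := anc_child hM hBS hB h hsu
          refine ⟨e, anc_trans hM hBS hB he hux, ?_⟩
          exact anc_trans hM hBS hB he (anc_trans hM hBS hB (huu a) h1)
        · exfalso
          obtain ⟨e, he⟩ := anc_child hM hBS hB h (Ne.symm hsu)
          have e1 := anc_child_unique hM hBS hB (anc_trans hM hBS hB he hx) h2
          have e2 := anc_child_unique hM hBS hB (anc_trans hM hBS hB he hy) h1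
          rw [← e1, ← e2] at haa
          exact lt_irrefl _ haa
    rcases key with rfl | ⟨e, he, he'⟩
    · refine ⟨⟨a, h1⟩, fun e he => ⟨a, ?_, h1⟩⟩
      rw [anc_child_unique hM hBS hB he h2]
      exact haa.le
    · refine ⟨⟨e, he'⟩, fun e₁ he₁ => ⟨e, ?_, he'⟩⟩
      rw [anc_child_unique hM hBS hB he₁ he]

/-- T11f: if the tree has no path then the Kleene-Brouwer order is a well-order -/
theorem kbW_wo (hM : Mod 𝒮) (hP : P ∈ 𝒮) (hFP : FP P)
    (hno : ¬ ∃ d : N → N, gr d ∈ 𝒮 ∧ IsPath (sec P (num 1)) d) : WO 𝒮 (kbW P) := by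
  refine ⟨kbW_lin hM hP hFP, ?_⟩
  rintro ⟨f, hf, hdesc⟩
  apply hno
  have hB : AncRec (sec P (num 2)) := hFP.1
  have hBS : sec P (num 2) ∈ 𝒮 :=
    hM.comp' (P := fun x => x ∈ sec P (num 2))
      (((DSet.const hP).sec (TmF.const (num 2))).mem (.var 0))
  obtain ⟨B, hBdef⟩ : ∃ B, B = sec P (num 2) := ⟨_, rfl⟩
  have hf0 : ∀ n, f n ≠ 0 := by
    intro n h0
    obtain ⟨-, -, hK⟩ := (wlt_kbW hM hP hFP).1 (hdesc n)
    rcases hK with ⟨-, h⟩ | ⟨b, c, -, h, -⟩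
    · exact h h0
    · rw [h0] at h
      have h' := (Ari.lt_succ' (0 : N) c).2 (Ari.zero_le' c)
      rw [← h] at h'
      exact lt_irrefl _ h'
  choose b hb using fun n => exists_pred (hf0 n)
  have hinj : ∀ {x y : N}, x + 1 = y + 1 → x = y := fun h => add_right_cancel h
  have hbS : gr b ∈ 𝒮 := by
    apply hM.gr_mem
    have h1 : Ar 𝒮 (fun (v : ℕ → N) (_ : Set N) => v 1 + 1 = f (v 0)) := by
      refine Ar.fn (P := fun v _ y => v 1 + 1 = y) hf (.var 0) ?_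
      exact Ar.eq (.add (.var 2) (.const 1)) (.var 0)
    refine h1.congr fun v X => ?_
    rw [hb (v 0)]
    exact ⟨fun h => hinj h, fun h => by rw [h]⟩
  have hT : ∀ n, TC P (b n) := by
    intro n
    obtain ⟨-, hF, -⟩ := (wlt_kbW hM hP hFP).1 (hdesc n)
    rcases hF with h | ⟨c, hc, hcP⟩
    · exact absurd h (hf0 n)
    · have : b n = c := hinj ((hb n).symm.trans hc)
      rw [this]
      exact (hFP.2 c).1 hcP
  have hK : ∀ n, KBlt B (b (n + 1)) (b n) := by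
    intro n
    obtain ⟨-, -, hK⟩ := (wlt_kbW hM hP hFP).1 (hdesc n)
    rcases hK with ⟨h, -⟩ | ⟨x, y, hx, hy, h⟩
    · exact absurd h (hf0 (n + 1))
    · have e1 : b (n + 1) = x := hinj ((hb (n + 1)).symm.trans hx)
      have e2 : b n = y := hinj ((hb n).symm.trans hy)
      rw [e1, e2, hBdef]
      exact h
  rw [← hBdef] at hB hBS
  -- stable nodes
  obtain ⟨U, hU⟩ : ∃ U : N → Prop, ∀ s, U s ↔ ∃ n0, ∀ n, n0 ≤ n → pr s (b n) ∈ B :=
    ⟨fun s => ∃ n0, ∀ n, n0 ≤ n → pr s (b n) ∈ B, fun s => Iff.rfl⟩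
  have hUar : ∀ {t : (ℕ → N) → N}, TmF t → Ar 𝒮 (fun v _ => U (t v)) := by
    intro t ht
    have h1 : Ar 𝒮 (fun (v : ℕ → N) (_ : Set N) =>
        ∃ n0, ∀ n, n0 ≤ n → pr (t v) (b n) ∈ B) := by
      apply Ar.ex
      apply Ar.all
      apply Ar.imp
      · exact Ar.le (.var 1) (.var 0)
      · refine Ar.fn (P := fun v _ y => pr (t (fun i => v (i + 1 + 1))) y ∈ B) hbS (.var 0) ?_
        refine Ar.memP hBS (TmF.pr ?_ (.var 0))
        exact ht.subst (fun i => .var (i + 1 + 1 + 1))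
    exact h1.congr fun v X => (hU (t v)).symm
  have hU0 : U 0 := by
    rw [hU]
    refine ⟨0, fun n _ => ?_⟩
    rw [hBdef]
    exact (hT n).1.1
  have hUT : ∀ s, U s → TC P s := by
    intro s hs
    obtain ⟨n0, h⟩ := (hU s).1 hs
    rw [hBdef] at h hB hBS
    exact kbb_tc_anc hM hBS hB (h n0 le_rfl) (hT n0)
  have hUnx : ∀ s, U s → ∃ e, U (nx s e) := by
    intro s hs
    obtain ⟨n0, h⟩ := (hU s).1 hs
    have hn1 : ∀ n : N, n ≤ n + 1 := fun n => ((Ari.lt_succ' n n).2 le_rfl).le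
    have hAr : Ar 𝒮 (fun (v : ℕ → N) (_ : Set N) =>
        ∃ n, n0 ≤ n ∧ pr (nx s (v 0)) (b n) ∈ B) := by
      apply Ar.ex
      apply Ar.and
      · exact Ar.le (.const n0) (.var 0)
      · refine Ar.fn (P := fun v _ y => pr (nx s (v 1)) y ∈ B) hbS (.var 0) ?_
        exact Ar.memP hBS (TmF.pr (TmF.nx (.const s) (.var 2)) (.var 0))
    obtain ⟨e, ⟨n1, hn, he⟩, hmin⟩ := hM.least'
      (P := fun e => ∃ n, n0 ≤ n ∧ pr (nx s e) (b n) ∈ B) hAr (by
      obtain ⟨e, he⟩ := (kbb_step hM hBS hB (h n0 le_rfl) (h (n0 + 1) (hn1 n0)) (hK n0)).1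
      exact ⟨e, n0 + 1, hn1 n0, he⟩)
    refine ⟨e, (hU _).2 ⟨n1, ?_⟩⟩
    have hAr' : Ar 𝒮 (fun (v : ℕ → N) (_ : Set N) => n1 ≤ v 0 → pr (nx s e) (b (v 0)) ∈ B) := by
      apply Ar.imp
      · exact Ar.le (.const n1) (.var 0)
      · refine Ar.fn (P := fun v _ y => pr (nx s e) y ∈ B) hbS (.var 0) ?_
        exact Ar.memP hBS (TmF.pr (.const _) (.var 0))
    refine hM.induct (P := fun n => n1 ≤ n → pr (nx s e) (b n) ∈ B) hAr' ?_ ?_
    · intro h0
      rw [← le_antisymm h0 (Ari.zero_le' n1)]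
      exact he
    · intro n ih hle
      rcases hle.lt_or_eq with hlt | heq
      · have hle' : n1 ≤ n := (Ari.lt_succ' n1 n).1 hlt
        have hn0 : n0 ≤ n := hn.trans hle'
        obtain ⟨e', he', hm⟩ := (kbb_step hM hBS hB (h n hn0) (h (n + 1) (hn0.trans (hn1 n)))
          (hK n)).2 e (ih hle')
        have : e' = e := le_antisymm he' (hmin e' ⟨n + 1, hn0.trans (hn1 n), hm⟩)
        rw [← this]
        exact hm
      · rw [← heq]
        exact he
  -- the path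
  have hG : Ar 𝒮 (fun (v : ℕ → N) (_ : Set N) =>
      ((∃ v', ∃ z, Nxt (v 0) z ∧ U (nx (v 0) (pr z v'))) →
        ∃ z, Nxt (v 0) z ∧ U (nx (v 0) (pr z (v 1))))) := by
    apply Ar.imp
    · apply Ar.ex
      apply Ar.ex
      apply Ar.and
      · exact Ar.nxt (.var 2) (.var 0)
      · exact hUar (TmF.nx (.var 2) (TmF.pr (.var 0) (.var 1)))
    · apply Ar.ex
      apply Ar.and
      · exact Ar.nxt (.var 1) (.var 0)
      · exact hUar (TmF.nx (.var 1) (TmF.pr (.var 0) (.var 2)))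
  obtain ⟨d, hd, hd0, hdn⟩ := recur hM hBS hB
    (G := fun s v => (∃ v', ∃ z, Nxt s z ∧ U (nx s (pr z v'))) →
      ∃ z, Nxt s z ∧ U (nx s (pr z v))) hG (by
    intro s
    by_cases h : ∃ v', ∃ z, Nxt s z ∧ U (nx s (pr z v'))
    · obtain ⟨v', hv'⟩ := h
      exact ⟨v', fun _ => hv'⟩
    · exact ⟨0, fun h' => absurd h' h⟩)
  have hAll : ∀ n, U (d n) ∧ Nxt (d n) n := by
    have hAr : Ar 𝒮 (fun (v : ℕ → N) (_ : Set N) => U (d (v 0)) ∧ Nxt (d (v 0)) (v 0)) := by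
      refine Ar.fn (P := fun v _ y => U y ∧ Nxt y (v 0)) hd (.var 0) ?_
      exact Ar.and (hUar (.var 0)) (Ar.nxt (.var 0) (.var 1))
    refine hM.induct (P := fun n => U (d n) ∧ Nxt (d n) n) hAr ?_ ?_
    · rw [hd0]
      exact ⟨hU0, nxt_zero.2 rfl⟩
    · rintro n ⟨hUn, hNn⟩
      obtain ⟨v, hv, hdv⟩ := hdn n
      obtain ⟨e, he⟩ := hUnx (d n) hUn
      have hgood := (hUT _ he).1
      rw [← hBdef] at hgood
      obtain ⟨z, v', hzv, hz⟩ := hgood.2 (d n) e (anc_refl hB _)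
      obtain ⟨z', hz', hU'⟩ := hv ⟨v', z, hz, by rw [← hzv]; exact he⟩
      have hzn : z' = n := kbb_nxt_unique hz' hNn
      rw [hdv]
      rw [hzn] at hU'
      exact ⟨hU', nxt_nx.2 rfl⟩
  refine ⟨d, hd, hd0, fun n => ?_, fun n => (hFP.2 (d n)).2 (hUT _ (hAll n).1)⟩
  obtain ⟨v, -, hv⟩ := hdn n
  exact ⟨v, hv⟩

end

end Pool.Agent.Lib.MP_7de92b_lc
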