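import Pool.Agent.Lib.MP_7de92b_lc.Mg.G002

/-!
# T7: a solution gives a path through the tree
-/

set_option autoImplicit false
set_option linter.unusedSectionVars false

namespace Pool.Agent.Lib.MP_7de92b_lc

section

variable {N : Type} [CommSemiring N] [LinearOrder N] [IsStrictOrderedRing N] [Ari N]
  {𝒮 : Set (Set N)} {P S : Set N}

private lemma t11_nxt_unique {s z z' : N} (h : Nxt s z) (h' : Nxt s z') : z = z' := by
  rcases h with ⟨h0, rfl⟩ | ⟨t, y, v, rfl, rfl⟩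
  · rcases h' with ⟨_, rfl⟩ | ⟨t', y', v', h1, _⟩
    · rfl
    · exact absurd (h1.symm.trans h0) (nx_ne_zero _ _)
  · rcases h' with ⟨h1, _⟩ | ⟨t', y', v', h1, rfl⟩
    · exact absurd h1 (nx_ne_zero _ _)
    · rw [nx_inj, pr_inj] at h1
      rw [h1.2.1]

theorem path_of_sol (hM : Mod 𝒮) (hP : P ∈ 𝒮) (hFP : FP P) (hS : S ∈ 𝒮) (h : Sol P S) :
    ∃ d : N → N, gr d ∈ 𝒮 ∧ IsPath (sec P (num 1)) d := by
  have hB : sec P (num 2) ∈ 𝒮 :=
    hM.comp' (P := fun x => pr x (num 2) ∈ P) (Ar.memP hP (TmF.pr (.var 0) (.const _)))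
  let G : N → N → Prop := fun s v => ∀ z, Nxt s z →
    (z ∉ S ∧ v = 0) ∨ (z ∈ S ∧ ∃ p, v = p + 1 ∧ RM P z p ∧ p ∉ S)
  have hG : Ar 𝒮 (fun v _ => G (v 0) (v 1)) := by
    refine Ar.all (P := fun w _ z => Nxt (w 0) z →
      (z ∉ S ∧ w 1 = 0) ∨ (z ∈ S ∧ ∃ p, w 1 = p + 1 ∧ RM P z p ∧ p ∉ S)) ?_
    refine Ar.imp (Ar.nxt (.var 1) (.var 0)) ?_
    refine Ar.or (Ar.and (Ar.not (Ar.memP hS (.var 0))) (Ar.eq (.var 2) (.const 0))) ?_
    refine Ar.and (Ar.memP hS (.var 0)) ?_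
    refine Ar.ex (P := fun w _ p => w 2 = p + 1 ∧ RM P (w 0) p ∧ p ∉ S) ?_
    refine Ar.and (Ar.eq (.var 3) (.add (.var 0) (.const 1))) ?_
    exact Ar.and (Ar.rM (.const hP) (.var 1) (.var 0)) (Ar.not (Ar.memP hS (.var 0)))
  have htot : ∀ s, ∃ v, G s v := by
    intro s
    by_cases hs : ∃ z, Nxt s z
    · obtain ⟨z, hz⟩ := hs
      by_cases hzS : z ∈ S
      · obtain ⟨p, hp, hpS⟩ := (h z).1 hzS
        refine ⟨p + 1, fun z' hz' => Or.inr ?_⟩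
        rw [t11_nxt_unique hz' hz]
        exact ⟨hzS, p, rfl, hp, hpS⟩
      · refine ⟨0, fun z' hz' => Or.inl ?_⟩
        rw [t11_nxt_unique hz' hz]
        exact ⟨hzS, rfl⟩
    · exact ⟨0, fun z hz => absurd ⟨z, hz⟩ hs⟩
  obtain ⟨d, hd, h0, h1⟩ := recur hM hB hFP.1 hG htot
  obtain ⟨g, -, hg1, hg2, hg3, hg4, -⟩ := seq_facts hM hB hFP.1 hd h0
    (fun n => (h1 n).imp fun v hv => hv.2)
  have hGg : ∀ n, (n ∉ S ∧ g n = 0) ∨ (n ∈ S ∧ ∃ p, g n = p + 1 ∧ RM P n p ∧ p ∉ S) := by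
    intro n
    obtain ⟨v, hv, hv'⟩ := h1 n
    have e : v = g n := by
      have := hv'.symm.trans (hg1 n)
      rw [nx_inj, pr_inj] at this
      exact this.2.2
    rw [← e]
    exact hv n ((hg4 n n).2 rfl)
  have hz0 : ∀ n, g n = 0 → n ∉ S := by
    intro n hn
    rcases hGg n with h | ⟨_, p, hp, _⟩
    · exact h.1
    · rw [hn] at hp
      exact absurd hp.symm (by
        have := Ari.zero_le' (N := N) p
        exact (lt_of_le_of_lt this (lt_add_one p)).ne')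
  refine ⟨d, hd, h0, fun n => ⟨g n, hg1 n⟩, fun n => (hFP.2 _).2 ⟨hg3 n, fun z v hzv => ?_⟩⟩
  rw [hg2] at hzv
  obtain ⟨hzn, rfl⟩ := hzv
  refine ⟨fun hv p hp hent => ?_, fun p hp => ?_⟩
  · rw [hg2] at hent
    have hpS : p ∉ S := hz0 p hent.2.symm
    exact hz0 z hv ((h z).2 ⟨p, hp, hpS⟩)
  · rcases hGg z with ⟨_, h3⟩ | ⟨_, p', hp', hrm, hpS⟩
    · rw [h3] at hp
      exact absurd hp.symm (lt_of_le_of_lt (Ari.zero_le' p) (lt_add_one p)).ne'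
    · have e : p = p' := by
        rw [hp'] at hp
        exact (add_right_cancel hp).symm
      subst e
      refine ⟨hrm, fun v' hv' => ?_⟩
      rw [hg2] at hv'
      rw [hv'.2]
      rcases hGg p with h4 | h4
      · exact h4.2
      · exact absurd h4.1 hpS

end

end Pool.Agent.Lib.MP_7de92b_lc
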