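import Pool.Agent.Lib.MP_7de92b_lc.Mg.G002

/-!
# T8: a path through the tree gives a solution
-/

set_option autoImplicit false
set_option linter.unusedSectionVars false

namespace Pool.Agent.Lib.MP_7de92b_lc

section

variable {N : Type} [CommSemiring N] [LinearOrder N] [IsStrictOrderedRing N] [Ari N]
  {𝒮 : Set (Set N)} {P : Set N}

theorem sol_of_path (hM : Mod 𝒮) (hP : P ∈ 𝒮) (hFP : FP P) {d : N → N} (hd : gr d ∈ 𝒮)
    (h : IsPath (sec P (num 1)) d) : ∃ S ∈ 𝒮, Sol P S := by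
  have hB : sec P (num 2) ∈ 𝒮 :=
    hM.comp' (P := fun x => pr x (num 2) ∈ P) (Ar.memP hP (TmF.pr (.var 0) (.const _)))
  obtain ⟨g, hg, hg1, hg2, hg3, hg4, -⟩ := seq_facts hM hB hFP.1 hd h.1 h.2.1
  have hTC : ∀ n, TC P (d n) := fun n => (hFP.2 _).1 (h.2.2 n)
  have hent : ∀ z n : N, z < n → Ent (sec P (num 2)) (d n) z (g z) :=
    fun z n hzn => (hg2 n z (g z)).2 ⟨hzn, rfl⟩
  have hz1 : ∀ z p : N, z < z + p + 1 := fun z p =>
    lt_of_le_of_lt (le_add_of_nonneg_right (Ari.zero_le' p)) (lt_add_one _)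
  have hz2 : ∀ z p : N, p < z + p + 1 := fun z p =>
    lt_of_le_of_lt (le_add_of_nonneg_left (Ari.zero_le' z)) (lt_add_one _)
  refine ⟨{z | g z ≠ 0}, hM.comp' (P := fun z => g z ≠ 0) ?_, fun z => ⟨fun hz => ?_, ?_⟩⟩
  · exact Ar.fn (P := fun _ _ a => a ≠ 0) hg (.var 0) (Ar.ne (.var 0) (.const 0))
  · obtain ⟨p, hp⟩ := exists_pred (show g z ≠ 0 from hz)
    obtain ⟨h1, h2⟩ := ((hTC (z + p + 1)).2 z (g z) (hent z _ (hz1 z p))).2 p hp
    exact ⟨p, h1, fun hpS => hpS (h2 _ (hent p _ (hz2 z p)))⟩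
  · rintro ⟨p, hp, hpS⟩ hz0
    have hp0 : g p = 0 := by
      by_contra hne
      exact hpS hne
    have h1 := ((hTC (z + p + 1)).2 z (g z) (hent z _ (hz1 z p))).1 hz0 p hp
    apply h1
    have h2 := hent p _ (hz2 z p)
    rwa [hp0] at h2

end

end Pool.Agent.Lib.MP_7de92b_lc
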