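import Pool.Agent.Lib.MP_7de92b_lc.Mg.G002

/-!
# T8: the sections of solutions
-/

set_option autoImplicit false
set_option linter.unusedSectionVars false

namespace Pool.Agent.Lib.MP_7de92b_lc

section

variable {N : Type} [CommSemiring N] [LinearOrder N] [IsStrictOrderedRing N] [Ari N]
  {P S Z Y : Set N}

lemma t9_OM (k x l i j u : N) (hk : k = pr (num 2) (pr l (pr i j))) :
    OM k x u ↔ (∃ y, DR l x y ∧ u = pr y i) ∨
      ((∃ c, l = pr (num 5) c) ∧ (u = pr x i ∨ u = pr x j)) ∨ (KR l x ∧ u = 0) := by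
  subst hk
  constructor
  · rintro ⟨l', i', j', hk, h⟩
    rw [pr_inj, pr_inj, pr_inj] at hk
    obtain ⟨-, rfl, rfl, rfl⟩ := hk
    exact h
  · intro h
    exact ⟨l, i, j, rfl, h⟩

/-- A family whose sections of tag 2 obey the moves is closed. -/
lemma t9_closed {C : Set N} (h0 : (0 : N) ∉ C)
    (hC : ∀ x l i j : N, pr x (pr (num 2) (pr l (pr i j))) ∈ C ↔
      ∃ u, OM (pr (num 2) (pr l (pr i j))) x u ∧ u ∉ C) : ClosedFam (secs C) := by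
  have key : ∀ x l i j : N, x ∈ sec C (pr (num 2) (pr l (pr i j))) ↔
      (∃ y, DR l x y ∧ y ∉ sec C i) ∨
      ((∃ c, l = pr (num 5) c) ∧ (x ∉ sec C i ∨ x ∉ sec C j)) ∨ KR l x := by
    intro x l i j
    have e1 : x ∈ sec C (pr (num 2) (pr l (pr i j))) ↔
        pr x (pr (num 2) (pr l (pr i j))) ∈ C := Iff.rfl
    rw [e1, hC x l i j]
    constructor
    · rintro ⟨u, hu, huC⟩
      rw [t9_OM _ x l i j u rfl] at hu
      rcases hu with ⟨y, hy, rfl⟩ | ⟨hc, rfl | rfl⟩ | ⟨hk, rfl⟩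
      · exact Or.inl ⟨y, hy, huC⟩
      · exact Or.inr (Or.inl ⟨hc, Or.inl huC⟩)
      · exact Or.inr (Or.inl ⟨hc, Or.inr huC⟩)
      · exact Or.inr (Or.inr hk)
    · rintro (⟨y, hy, huC⟩ | ⟨hc, huC | huC⟩ | hk)
      · exact ⟨_, (t9_OM _ x l i j _ rfl).2 (Or.inl ⟨y, hy, rfl⟩), huC⟩
      · exact ⟨_, (t9_OM _ x l i j _ rfl).2 (Or.inr (Or.inl ⟨hc, Or.inl rfl⟩)), huC⟩
      · exact ⟨_, (t9_OM _ x l i j _ rfl).2 (Or.inr (Or.inl ⟨hc, Or.inr rfl⟩)), huC⟩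
      · exact ⟨0, (t9_OM _ x l i j _ rfl).2 (Or.inr (Or.inr ⟨hk, rfl⟩)), h0⟩
  constructor
  · rintro _ ⟨i, rfl⟩ _ ⟨j, rfl⟩
    refine ⟨pr (num 2) (pr (pr (num 5) 0) (pr i j)), ?_⟩
    ext x
    rw [key]
    simp only [DR, KR, pr_inj, num_inj, Set.mem_ofPred_eq]
    simp
  · rintro _ ⟨i, rfl⟩
    refine ⟨pr (num 2) (pr (pr (num 0) 0) (pr i 0)), ?_⟩
    ext x
    rw [key]
    simp only [DR, KR, pr_inj, num_inj, Set.mem_ofPred_eq]
    simp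
    aesop
  · rintro _ ⟨i, rfl⟩
    refine ⟨pr (num 2) (pr (pr (num 1) 0) (pr i 0)), ?_⟩
    ext x
    rw [key]
    simp only [DR, KR, pr_inj, num_inj, Set.mem_ofPred_eq]
    simp
  · rintro _ ⟨i, rfl⟩
    refine ⟨pr (num 2) (pr (pr (num 2) 0) (pr i 0)), ?_⟩
    ext x
    rw [key]
    simp only [DR, KR, pr_inj, num_inj, Set.mem_ofPred_eq]
    simp
  · rintro _ ⟨i, rfl⟩ c
    refine ⟨pr (num 2) (pr (pr (num 3) c) (pr i 0)), ?_⟩
    ext x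
    rw [key]
    simp only [DR, KR, pr_inj, num_inj, Set.mem_ofPred_eq]
    simp
  · rintro _ ⟨i, rfl⟩
    refine ⟨pr (num 2) (pr (pr (num 4) 0) (pr i 0)), ?_⟩
    ext x
    rw [key]
    simp only [DR, KR, pr_inj, num_inj, Set.mem_ofPred_eq]
    simp
  · refine ⟨pr (num 2) (pr (pr (num 6) 0) (pr 0 0)), ?_⟩
    ext x
    rw [key]
    simp only [DR, KR, pr_inj, num_inj, Set.mem_ofPred_eq]
    simp
  · intro c
    refine ⟨pr (num 2) (pr (pr (num 7) c) (pr 0 0)), ?_⟩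
    ext x
    rw [key]
    simp only [DR, KR, pr_inj, num_inj, Set.mem_ofPred_eq]
    simp
  · refine ⟨pr (num 2) (pr (pr (num 8) 0) (pr 0 0)), ?_⟩
    ext x
    rw [key]
    simp only [DR, KR, pr_inj, num_inj, Set.mem_ofPred_eq]
    simp
  · refine ⟨pr (num 2) (pr (pr (num 9) 0) (pr 0 0)), ?_⟩
    ext x
    rw [key]
    simp only [DR, KR, pr_inj, num_inj, Set.mem_ofPred_eq]
    simp
  · refine ⟨pr (num 2) (pr (pr (num 10) 0) (pr 0 0)), ?_⟩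
    ext x
    rw [key]
    simp only [DR, KR, pr_inj, num_inj, Set.mem_ofPred_eq]
    simp

lemma t9_RM (x k p : N) :
    RM P (pr x k) p ↔ (k = pr (num 1) 0 ∧ x ∈ P ∧ p = 0) ∨ OM k x p ∨
      ∃ i, k = pr (num 3) i ∧
        ((∃ x', x = pr x' 0 ∧ p = pr x' i) ∨ ∃ p', HM P x p' ∧ p = pr p' k) := by
  constructor
  · rintro ⟨x', k', hz, h⟩
    rw [pr_inj] at hz
    obtain ⟨rfl, rfl⟩ := hz
    exact h
  · intro h
    exact ⟨x, k, rfl, h⟩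

lemma t9_pr_num_ne_zero {i : ℕ} (hi : 0 < i) (c : N) : pr (num i) c ≠ 0 := by
  intro h
  rw [pr_eq_zero] at h
  exact (num_pos hi).ne' h.1

lemma t9_zero (h : Sol P S) : (0 : N) ∉ S := by
  intro h0
  obtain ⟨p, ⟨x, k, hz, hr⟩, -⟩ := (h 0).1 h0
  obtain ⟨rfl, rfl⟩ := pr_eq_zero.1 hz.symm
  rcases hr with ⟨hk, -⟩ | ⟨l, i, j, hk, -⟩ | ⟨i, hk, -⟩
  · exact t9_pr_num_ne_zero one_pos _ hk.symm
  · exact t9_pr_num_ne_zero two_pos _ hk.symm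
  · exact t9_pr_num_ne_zero three_pos _ hk.symm

theorem sol_base (h : Sol P S) : sec S (pr (num 1) 0) = P := by
  ext x
  have e1 : x ∈ sec S (pr (num 1) 0) ↔ pr x (pr (num 1) 0) ∈ S := Iff.rfl
  rw [e1, h]
  constructor
  · rintro ⟨p, hp, -⟩
    rw [t9_RM] at hp
    rcases hp with ⟨-, hx, -⟩ | ⟨l, i, j, hk, -⟩ | ⟨i, hk, -⟩
    · exact hx
    · rw [pr_inj, num_inj] at hk
      omega
    · rw [pr_inj, num_inj] at hk
      omega
  · intro hx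
    exact ⟨0, (t9_RM _ _ _).2 (Or.inl ⟨rfl, hx, rfl⟩), t9_zero h⟩

theorem sol_closed (h : Sol P S) : ClosedFam (secs S) := by
  apply t9_closed (t9_zero h)
  intro x l i j
  rw [h]
  refine exists_congr fun p => and_congr_left' ?_
  rw [t9_RM]
  constructor
  · rintro (⟨hk, -⟩ | hp | ⟨i, hk, -⟩)
    · rw [pr_inj, num_inj] at hk
      omega
    · exact hp
    · rw [pr_inj, num_inj] at hk
      omega
  · exact fun hp => Or.inr (Or.inl hp)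

theorem sol_hier (h : Sol P S) (i : N) : HierEq (sec S (pr (num 3) i)) P (sec S i) := by
  intro x
  have e1 : x ∈ sec S (pr (num 3) i) ↔ pr x (pr (num 3) i) ∈ S := Iff.rfl
  rw [e1, h]
  constructor
  · rintro ⟨p, hp, hpS⟩
    rw [t9_RM] at hp
    rcases hp with ⟨hk, -⟩ | ⟨l, i, j, hk, -⟩ | ⟨i', hk, hx⟩
    · rw [pr_inj, num_inj] at hk
      omega
    · rw [pr_inj, num_inj] at hk
      omega
    · rw [pr_inj] at hk
      obtain ⟨-, rfl⟩ := hk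
      rcases hx with ⟨x', hx, rfl⟩ | ⟨p', hp', rfl⟩
      · exact Or.inl ⟨x', hx, hpS⟩
      · exact Or.inr ⟨p', hp', hpS⟩
  · rintro (⟨x', hx, hpS⟩ | ⟨p', hp', hpS⟩)
    · exact ⟨_, (t9_RM _ _ _).2 (Or.inr (Or.inr ⟨i, rfl, Or.inl ⟨x', hx, rfl⟩⟩)), hpS⟩
    · exact ⟨_, (t9_RM _ _ _).2 (Or.inr (Or.inr ⟨i, rfl, Or.inr ⟨p', hp', rfl⟩⟩)), hpS⟩

end

end Pool.Agent.Lib.MP_7de92b_lc
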