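import Pool.Agent.Lib.MP_7de92b_lc.Mg.G002

/-!
# T19: the solution of the rule system when the tree is well-founded
-/

set_option autoImplicit false
set_option linter.unusedSectionVars false

namespace Pool.Agent.Lib.MP_7de92b_lc

section

variable {N : Type} [CommSemiring N] [LinearOrder N] [IsStrictOrderedRing N] [Ari N]
  {𝒮 : Set (Set N)} {P : Set N}

/-- `k` is the second component of `x`, or `0` if `x` is not a pair -/
def t20S2 (x k : N) : Prop := (∃ y, x = pr y k) ∨ ((¬ ∃ y i, x = pr y i) ∧ k = 0)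

/-- `z` is a position of a hierarchy at a node of the tree -/
def t20H (P : Set N) (z : N) : Prop :=
  ∃ x b i, z = pr (pr x (b + 1)) (pr (num 3) i) ∧ pr b (num 1) ∈ P

/-- the graph of the rank function -/
def t20R (P : Set N) (z v : N) : Prop :=
  (∃ x b i k, z = pr (pr x (b + 1)) (pr (num 3) i) ∧ pr b (num 1) ∈ P ∧ t20S2 x k ∧
    v = pr (pr (num 3) i) (pr (b + 1) k)) ∨
  (¬ t20H P z ∧ ∃ k, t20S2 z k ∧ v = pr k (pr 0 0))

lemma t20S2_ex (x : N) : ∃ k, t20S2 x k := by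
  by_cases h : ∃ y i, x = pr y i
  · obtain ⟨y, i, rfl⟩ := h
    exact ⟨i, Or.inl ⟨y, rfl⟩⟩
  · exact ⟨0, Or.inr ⟨h, rfl⟩⟩

lemma t20S2_uniq {x k k' : N} (h : t20S2 x k) (h' : t20S2 x k') : k = k' := by
  rcases h with ⟨y, hy⟩ | ⟨hn, hk⟩
  · rcases h' with ⟨y', hy'⟩ | ⟨hn', hk'⟩
    · rw [hy] at hy'
      exact (pr_inj.1 hy').2
    · exact absurd ⟨y, k, hy⟩ hn'
  · rcases h' with ⟨y', hy'⟩ | ⟨hn', hk'⟩
    · exact absurd ⟨y', k', hy'⟩ hn
    · rw [hk, hk']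

lemma t20S2_pr {y k k' : N} : t20S2 (pr y k) k' ↔ k' = k := by
  constructor
  · intro h
    exact t20S2_uniq h (Or.inl ⟨y, rfl⟩)
  · rintro rfl
    exact Or.inl ⟨y, rfl⟩

lemma t20S2_zero {k : N} : t20S2 (0 : N) k ↔ k = 0 := by
  have h0 : (0 : N) = pr 0 0 := pr_zero_zero.symm
  constructor
  · intro h
    rw [h0] at h
    exact t20S2_pr.1 h
  · rintro rfl
    exact Or.inl ⟨0, h0⟩

lemma t20R_ex (P : Set N) (z : N) : ∃ v, t20R P z v := by
  by_cases h : t20H P z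
  · obtain ⟨x, b, i, hz, hb⟩ := h
    obtain ⟨k, hk⟩ := t20S2_ex x
    exact ⟨_, Or.inl ⟨x, b, i, k, hz, hb, hk, rfl⟩⟩
  · obtain ⟨k, hk⟩ := t20S2_ex z
    exact ⟨_, Or.inr ⟨h, k, hk, rfl⟩⟩

lemma t20R_uniq {z v v' : N} (h : t20R P z v) (h' : t20R P z v') : v = v' := by
  rcases h with ⟨x, b, i, k, hz, hb, hk, rfl⟩ | ⟨hn, k, hk, rfl⟩
  · rcases h' with ⟨x', b', i', k', hz', hb', hk', rfl⟩ | ⟨hn', k', hk', rfl⟩
    · rw [hz] at hz'
      obtain ⟨h1, h2⟩ := pr_inj.1 hz'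
      obtain ⟨h3, h4⟩ := pr_inj.1 h1
      subst h3
      have h5 := t20S2_uniq hk hk'
      rw [h2, h4, h5]
    · exact absurd ⟨x, b, i, hz, hb⟩ hn'
  · rcases h' with ⟨x', b', i', k', hz', hb', hk', rfl⟩ | ⟨hn', k', hk', rfl⟩
    · exact absurd ⟨x', b', i', hz', hb'⟩ hn
    · have h5 := t20S2_uniq hk hk'
      rw [h5]

lemma t20R_node {x b i k : N} (hb : pr b (num 1) ∈ P) (hk : t20S2 x k) :
    t20R P (pr (pr x (b + 1)) (pr (num 3) i)) (pr (pr (num 3) i) (pr (b + 1) k)) :=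
  Or.inl ⟨x, b, i, k, rfl, hb, hk, rfl⟩

/-- every value of the rank starts with the section index -/
lemma t20R_fst {x k v : N} (h : t20R P (pr x k) v) : ∃ w, v = pr k w := by
  rcases h with ⟨x', b, i, k', hz, hb, hk, rfl⟩ | ⟨hn, k', hk, rfl⟩
  · obtain ⟨h1, h2⟩ := pr_inj.1 hz
    rw [h2]
    exact ⟨_, rfl⟩
  · rw [t20S2_pr.1 hk]
    exact ⟨_, rfl⟩

/-- the position with bottom -/
lemma t20R_bot {y k v : N} (h : t20R P (pr (pr y 0) k) v) : v = pr k (pr 0 0) := by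
  rcases h with ⟨x', b, i, k', hz, hb, hk, rfl⟩ | ⟨hn, k', hk, rfl⟩
  · obtain ⟨h1, h2⟩ := pr_inj.1 hz
    obtain ⟨h3, h4⟩ := pr_inj.1 h1
    exfalso
    have h0 : (0 : N) < b + 1 := by
      have := Ari.zero_le' b
      exact (Ari.lt_succ' 0 b).2 this
    exact absurd h4 h0.ne
  · rw [t20S2_pr.1 hk]

lemma t20R_ar (hP : P ∈ 𝒮) : Ar 𝒮 (fun v _ => t20R P (v 0) (v 1)) := by
  unfold t20R t20H t20S2
  repeat' first
    | apply Ar.ex | apply Ar.all | apply Ar.and | apply Ar.or | apply Ar.iff | apply Ar.not | apply Ar.imp | apply Ar.eq | apply Ar.lt | apply Ar.le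
    | refine Ar.memP (by assumption) ?_ | apply Ar.memX | apply TmF.pr | apply TmF.nx | apply TmF.add | apply TmF.mul | apply TmF.const | apply TmF.var

/-- T14 -/
theorem sol_of_wo (hA : ATR0 𝒮) (hM : Mod 𝒮) (hP : P ∈ 𝒮) (hFP : FP P)
    (hkb : WO 𝒮 (kbW P)) : ∃ S ∈ 𝒮, Sol P S := by
  classical
  have hBS : sec P (num 2) ∈ 𝒮 := by
    apply hM.comp' (P := fun x => pr x (num 2) ∈ P)
    exact Ar.memP hP (TmF.pr (.var 0) (.const _))
  have hB : AncRec (sec P (num 2)) := hFP.1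
  have hnS : (natW : Set N) ∈ 𝒮 := natW_mem hM
  have hnW : WO 𝒮 (natW : Set N) := natW_wo hM
  have hkS : kbW P ∈ 𝒮 := kbW_mem hM hP
  have hV : WO 𝒮 (lexW (kbW P) natW) := lexW_wo hM hBS hB hkS hnS hkb hnW
  have hVS : lexW (kbW P) natW ∈ 𝒮 := lexW_mem hM hkS hnS
  have hW : WO 𝒮 (lexW natW (lexW (kbW P) natW)) := lexW_wo hM hBS hB hnS hVS hnW hV
  have hWS : lexW natW (lexW (kbW P) natW) ∈ 𝒮 := lexW_mem hM hnS hVS
  have hVf : ∀ β k : N, KF P β → pr β k ∈ fld (lexW (kbW P) (natW : Set N)) := by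
    intro β k hβ
    rw [mem_fld_lexW hkb.1 hnW.1]
    refine ⟨β, k, rfl, mem_fld_kbW.2 hβ, ?_⟩
    rw [fld_natW]
    trivial
  have hWf : ∀ k β k' : N, KF P β → pr k (pr β k') ∈ fld (lexW natW (lexW (kbW P) (natW : Set N))) := by
    intro k β k' hβ
    rw [mem_fld_lexW hnW.1 hV.1]
    refine ⟨k, _, rfl, ?_, hVf β k' hβ⟩
    rw [fld_natW]
    trivial
  have hKF0 : KF P 0 := Or.inl rfl
  choose ρ hρ using t20R_ex P
  have hρgr : gr ρ ∈ 𝒮 := by
    apply hM.gr_mem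
    refine (t20R_ar hP).congr fun v X => ?_
    constructor
    · intro h
      exact t20R_uniq h (hρ _)
    · intro h
      rw [h]
      exact hρ _
  have hρW : ∀ z, ρ z ∈ fld (lexW natW (lexW (kbW P) (natW : Set N))) := by
    intro z
    rcases hρ z with ⟨x, b, i, k, hz, hb, hk, hv⟩ | ⟨hn, k, hk, hv⟩
    · rw [hv]
      exact hWf _ _ _ (Or.inr ⟨b, rfl, hb⟩)
    · rw [hv]
      exact hWf _ _ _ hKF0
  -- first component decreases
  have hdec1 : ∀ x k x' k' : N, k' < k →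
      wlt (lexW natW (lexW (kbW P) (natW : Set N))) (ρ (pr x' k')) (ρ (pr x k)) := by
    intro x k x' k' hlt
    obtain ⟨w, hw⟩ := t20R_fst (hρ (pr x k))
    obtain ⟨w', hw'⟩ := t20R_fst (hρ (pr x' k'))
    have f1 := hρW (pr x k)
    have f2 := hρW (pr x' k')
    rw [hw] at f1 ⊢
    rw [hw'] at f2 ⊢
    rw [wlt_lexW hnW.1 hV.1]
    rw [mem_fld_lexW hnW.1 hV.1] at f1 f2
    obtain ⟨a, b, e, ha, hb⟩ := f1
    obtain ⟨a', b', e', ha', hb'⟩ := f2
    obtain ⟨e1, e2⟩ := pr_inj.1 e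
    obtain ⟨e1', e2'⟩ := pr_inj.1 e'
    subst e1 e2 e1' e2'
    exact ⟨hb', hb, Or.inl (wlt_natW.2 hlt)⟩
  have hpos : ∀ (n : ℕ) (a : N), 0 < n → 0 < pr (num n) a := by
    intro n a hn
    exact lt_of_lt_of_le (num_pos hn) (le_pr_left _ _)
  have hdec0 : ∀ (x : N) (k : N), 0 < k →
      wlt (lexW natW (lexW (kbW P) (natW : Set N))) (ρ 0) (ρ (pr x k)) := by
    intro x k hk
    have := hdec1 x k 0 0 hk
    rwa [pr_zero_zero] at this
  -- bounds for the indices in `OM`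
  have hij : ∀ l i j : N, i < pr (num 2) (pr l (pr i j)) ∧ j < pr (num 2) (pr l (pr i j)) := by
    intro l i j
    have h1 : pr l (pr i j) < pr (num 2) (pr l (pr i j)) := lt_pr_right (num_pos (by norm_num)) _
    exact ⟨lt_of_le_of_lt ((le_pr_left i j).trans (le_pr_right l _)) h1,
      lt_of_le_of_lt ((le_pr_right i j).trans (le_pr_right l _)) h1⟩
  have hOM : ∀ k x u : N, OM k x u → 0 < k ∧ (u = 0 ∨ ∃ y i, u = pr y i ∧ i < k) := by
    rintro k x u ⟨l, i, j, rfl, h⟩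
    refine ⟨hpos 2 _ (by norm_num), ?_⟩
    rcases h with ⟨y, _, rfl⟩ | ⟨_, rfl | rfl⟩ | ⟨_, rfl⟩
    · exact Or.inr ⟨_, _, rfl, (hij l i j).1⟩
    · exact Or.inr ⟨_, _, rfl, (hij l i j).1⟩
    · exact Or.inr ⟨_, _, rfl, (hij l i j).2⟩
    · exact Or.inl rfl
  obtain ⟨S, hS, hsol⟩ := solve hA hM hWS hW hρgr hρW (Rl := RM P)
    (Ar.rM (DSet.const hP) (.var 0) (.var 1)) (by
      rintro z p ⟨x, k, rfl, h⟩
      rcases h with ⟨rfl, hx, rfl⟩ | h | ⟨i, rfl, h⟩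
      · exact hdec0 _ _ (hpos 1 _ (by norm_num))
      · obtain ⟨hk, rfl | ⟨y, i, rfl, hi⟩⟩ := hOM _ _ _ h
        · exact hdec0 _ _ hk
        · exact hdec1 _ _ _ _ hi
      · rcases h with ⟨x', rfl, rfl⟩ | ⟨p', h, rfl⟩
        · exact hdec1 _ _ _ _ (lt_pr_right (num_pos (by norm_num)) _)
        · obtain ⟨y, κ, b, rfl, hb, h⟩ := h
          have e1 : ρ (pr (pr (pr y κ) (b + 1)) (pr (num 3) i)) =
              pr (pr (num 3) i) (pr (b + 1) κ) :=
            t20R_uniq (hρ _) (t20R_node hb (t20S2_pr.2 rfl))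
          rw [e1]
          rcases h with ⟨γ, rfl, hprec, rfl⟩ | ⟨u, hu, rfl⟩
          · obtain ⟨hγ, hβ, hkl⟩ := kl_of_prec hprec
            have e2 : ∃ κ', ρ (pr (pr y γ) (pr (num 3) i)) =
                pr (pr (num 3) i) (pr γ κ') := by
              rcases hγ with rfl | ⟨c, rfl, hc⟩
              · exact ⟨0, t20R_bot (hρ _)⟩
              · obtain ⟨κ', hκ'⟩ := t20S2_ex y
                exact ⟨κ', t20R_uniq (hρ _) (t20R_node hc hκ')⟩
            obtain ⟨κ', e2⟩ := e2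
            rw [e2, wlt_lexW hnW.1 hV.1]
            refine ⟨hVf _ _ hγ, hVf _ _ hβ, Or.inr ⟨rfl, ?_, ?_⟩⟩
            · rw [fld_natW]
              trivial
            · rw [wlt_lexW hkb.1 hnW.1]
              refine ⟨?_, ?_, Or.inl ?_⟩
              · rw [fld_natW]
                trivial
              · rw [fld_natW]
                trivial
              · rw [wlt_kbW hM hP hFP]
                exact ⟨hγ, hβ, hkl⟩
          · have hβ : KF P (b + 1) := Or.inr ⟨b, rfl, hb⟩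
            obtain ⟨hκ, hu'⟩ := hOM _ _ _ hu
            have e2 : ∃ κ', κ' < κ ∧ ρ (pr (pr u (b + 1)) (pr (num 3) i)) =
                pr (pr (num 3) i) (pr (b + 1) κ') := by
              rcases hu' with rfl | ⟨y', i', rfl, hi'⟩
              · exact ⟨0, hκ, t20R_uniq (hρ _) (t20R_node hb (t20S2_zero.2 rfl))⟩
              · exact ⟨i', hi', t20R_uniq (hρ _) (t20R_node hb (t20S2_pr.2 rfl))⟩
            obtain ⟨κ', hlt, e2⟩ := e2
            rw [e2, wlt_lexW hnW.1 hV.1]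
            refine ⟨hVf _ _ hβ, hVf _ _ hβ, Or.inr ⟨rfl, ?_, ?_⟩⟩
            · rw [fld_natW]
              trivial
            · rw [wlt_lexW hkb.1 hnW.1]
              refine ⟨?_, ?_, Or.inr ⟨rfl, mem_fld_kbW.2 hβ, wlt_natW.2 hlt⟩⟩
              · rw [fld_natW]
                trivial
              · rw [fld_natW]
                trivial)
  exact ⟨S, hS, hsol⟩

end

end Pool.Agent.Lib.MP_7de92b_lc
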