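import Pool.Agent.Lib.MP_7de92b_lc.Peano
import Pool.Agent.Lib.MP_7de92b_lc.Comp
import Pool.Agent.Lib.MP_7de92b_lc.PathA
import Pool.Agent.Lib.MP_7de92b_lc.PathB
import Pool.Agent.Lib.MP_7de92b_lc.Index
import Pool.Agent.Lib.MP_7de92b_lc.Desc
import Pool.Agent.Lib.MP_7de92b_lc.CovB
import Pool.Agent.Lib.MP_7de92b_lc.SolveB
import Pool.Agent.Lib.MP_7de92b_lc.KBB
import Pool.Agent.Lib.MP_7de92b_lc.SectA

/-!
# Assembly
-/

set_option autoImplicit false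
set_option linter.unusedSectionVars false

namespace Pool.Agent.Lib.MP_7de92b_lc

/-- the matrix of the sentence -/
noncomputable def theta : Fml 0 3 := exists_theta.choose

lemma theta_arith : theta.Arith := exists_theta.choose_spec.1

lemma sat_theta {N : Type} [Zero N] [One N] [Add N] [Mul N] [LT N] (𝒯 : Set (Set N))
    (v : Fin 0 → N) (V : Fin 3 → Set N) :
    theta.Sat 𝒯 v V ↔ FP (V 2) ∧ HierEq (V 0) (V 2) (V 1) :=
  exists_theta.choose_spec.2 N 𝒯 v V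

/-- the sentence -/
noncomputable def sigma : Fml 0 0 := .exS (.allS (.exS theta))

lemma sigma13 : Sigma13 sigma := ⟨theta, theta_arith, rfl⟩

lemma sat_sigma {N : Type} [Zero N] [One N] [Add N] [Mul N] [LT N] (𝒯 : Set (Set N))
    (v : Fin 0 → N) (V : Fin 0 → Set N) :
    sigma.Sat 𝒯 v V ↔ ∃ P ∈ 𝒯, ∀ Y ∈ 𝒯, ∃ Z ∈ 𝒯, FP P ∧ HierEq Z P Y := by
  unfold sigma Fml.allS
  simp only [Fml.Sat, sat_theta]
  push Not
  rfl

section

variable {N : Type} [CommSemiring N] [LinearOrder N] [IsStrictOrderedRing N] [Ari N]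
  {𝒮 : Set (Set N)}

theorem dir1 (h : ACA0 𝒮) (hR : Rfn sigma 𝒮) : ATR0 𝒮 := by
  refine ⟨h, fun n m θ hθ v V hV W hW hWO => ?_⟩
  have hM : Mod 𝒮 := h.mod
  obtain ⟨Y, hY, hcode⟩ := hM.exists_code (Fin.cons W V : Fin (m + 1) → Set N) (by
    intro j
    refine Fin.cases ?_ (fun i => ?_) j
    · exact hW
    · exact hV i)
  obtain ⟨C, hC, hYC, hCA, hσ⟩ := hR Y hY
  have hMC : Mod (secs C) := hCA.mod
  rw [sat_sigma] at hσ
  obtain ⟨P, hP, hσ⟩ := hσ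
  obtain ⟨Z, hZ, hFP, hH⟩ := hσ Y hYC
  have hsub := hM.secs_sub hC
  obtain ⟨S, hS, hSol⟩ := sol_of_model hM hC hMC hP hFP (fun Y' hY' => by
    obtain ⟨Z', hZ', _, hH'⟩ := hσ Y' hY'
    exact ⟨Z', hZ', hH'⟩)
  obtain ⟨d, hd, hpath⟩ := path_of_sol hM (hsub hP) hFP hS hSol
  refine atr_of_path hM (hsub hP) hFP hd hpath (hsub hZ) hY hH hW (hcode 0) hWO
    (R := fun k X => θ.Sat 𝒮 (Fin.cons k v) (Fin.cons X V)) ?_
  intro 𝒬 hQ hYQ
  have hVQ : ∀ j, V j ∈ 𝒬 := by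
    intro j
    obtain ⟨k, hk⟩ := hcode j.succ
    have : V j = sec Y k := by rw [hk]; rfl
    rw [this]
    exact hQ.secs_sub hYQ ⟨k, rfl⟩
  have key := Ar.sat (𝒮 := 𝒬) 𝒮 θ hθ
    (t := fun i w => Fin.cases (motive := fun _ => N) (w 0) (fun j => v j) i)
    (Q := fun j y w X => y ∈ (Fin.cons X V : Fin (m + 1) → Set N) j)
    (by
      intro i
      refine Fin.cases ?_ (fun j => ?_) i
      · exact .var 0
      · exact .const (v j))
    (by
      intro j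
      refine Fin.cases ?_ (fun i => ?_) j
      · exact Ar.memX (.var 0)
      · exact Ar.memP (hVQ i) (.var 0))
  refine key.congr fun w X => ?_
  have e1 : (fun i => Fin.cases (motive := fun _ => N) (w 0) (fun j => v j) i) =
      (Fin.cons (w 0) v : Fin (n + 1) → N) := by
    funext i
    refine Fin.cases ?_ (fun j => ?_) i <;> rfl
  rw [e1]
  rfl

theorem dir2 (h : ATR0 𝒮) : Rfn sigma 𝒮 := by
  intro X hX
  have hM : Mod 𝒮 := h.1.mod
  obtain ⟨P, hP, hFP, hPX⟩ := exists_FP h hM hX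
  have hpath : ∃ d : N → N, gr d ∈ 𝒮 ∧ IsPath (sec P (num 1)) d := by
    by_contra hno
    obtain ⟨S, hS, hSol⟩ := sol_of_wo h hM hP hFP (kbW_wo hM hP hFP hno)
    exact hno (path_of_sol hM hP hFP hS hSol)
  obtain ⟨d, hd, hpath⟩ := hpath
  obtain ⟨S, hS, hSol⟩ := sol_of_path hM hP hFP hd hpath
  have hMS : Mod (secs S) := (sol_closed hSol).mod hM (hM.secs_sub hS)
  have hPS : P ∈ secs S := ⟨_, sol_base hSol⟩
  refine ⟨S, hS, ?_, hMS.aca0, ?_⟩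
  · rw [← hPX]
    exact hMS.secs_sub hPS ⟨0, rfl⟩
  · rw [sat_sigma]
    refine ⟨P, hPS, ?_⟩
    rintro Y ⟨i, rfl⟩
    exact ⟨_, ⟨_, rfl⟩, hFP, sol_hier hSol i⟩

end

theorem main_equiv {N : Type} [z : Zero N] [o : One N] [a : Add N] [m : Mul N] [l : LT N]
    {𝒮 : Set (Set N)} (h : ACA0 𝒮) : Rfn sigma 𝒮 ↔ ATR0 𝒮 := by
  obtain ⟨cs, lo, so, ari, hz, ho, ha, hm, hl⟩ := h.exists_inst
  subst hz ho ha hm hl
  exact ⟨fun hR => dir1 h hR, fun hA => dir2 hA⟩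

end Pool.Agent.Lib.MP_7de92b_lc
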