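import Pool.Agent.Lib.MP_7de92b_lc.Mg.G001

/-!
# T2: a model of ACA_0 is a discrete ordered semiring
-/

set_option autoImplicit false
set_option linter.unusedSectionVars false

namespace Pool.Agent.Lib.MP_7de92b_lc

/-- the instances of an ordered semiring -/
abbrev csZero (N : Type) [CommSemiring N] : Zero N := inferInstance
abbrev csOne (N : Type) [CommSemiring N] : One N := inferInstance
abbrev csAdd (N : Type) [CommSemiring N] : Add N := inferInstance
abbrev csMul (N : Type) [CommSemiring N] : Mul N := inferInstance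
abbrev loLT (N : Type) [LinearOrder N] : LT N := inferInstance

section t2

variable {N : Type} [z : Zero N] [o : One N] [a : Add N] [m : Mul N] [l : LT N]
    {𝒮 : Set (Set N)}

lemma t2_ne (h : ACA0 𝒮) : ∃ X, X ∈ 𝒮 :=
  ⟨_, h.comprehension 0 0 (Fml.eq Tm.zero Tm.zero) trivial Fin.elim0 Fin.elim0
    (fun i => i.elim0)⟩

lemma t2_ind (h : ACA0 𝒮) {P : N → Prop} (hP : Ar 𝒮 (fun v _ => P (v 0))) (h0 : P 0)
    (h1 : ∀ n, P n → P (n + 1)) : ∀ n, P n := by
  obtain ⟨X, hX⟩ := t2_ne h
  have hS : {x : N | P x} ∈ 𝒮 := h.comp hP (fun _ => 0) hX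
  exact h.induction _ hS h0 h1

lemma t2_add_assoc (h : ACA0 𝒮) (x y w : N) : (x + y) + w = x + (y + w) := by
  refine t2_ind h (P := fun w => (x + y) + w = x + (y + w)) ?_ ?_ ?_ w
  · exact Ar.eq (((TmF.const x).add (.const y)).add (.var 0))
      ((TmF.const x).add ((TmF.const y).add (.var 0)))
  · show (x + y) + 0 = x + (y + 0)
    rw [h.add_zero, h.add_zero]
  · intro n ih
    show (x + y) + (n + 1) = x + (y + (n + 1))
    rw [h.add_succ, h.add_succ, h.add_succ, ih]

lemma t2_zero_add (h : ACA0 𝒮) (x : N) : 0 + x = x := by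
  refine t2_ind h (P := fun x => 0 + x = x) ?_ ?_ ?_ x
  · exact Ar.eq ((TmF.const 0).add (.var 0)) (.var 0)
  · exact h.add_zero 0
  · intro n ih
    show 0 + (n + 1) = n + 1
    rw [h.add_succ, ih]

lemma t2_succ_add (h : ACA0 𝒮) (x y : N) : (x + 1) + y = (x + y) + 1 := by
  refine t2_ind h (P := fun y => (x + 1) + y = (x + y) + 1) ?_ ?_ ?_ y
  · exact Ar.eq (((TmF.const x).add (.const 1)).add (.var 0))
      (((TmF.const x).add (.var 0)).add (.const 1))
  · show (x + 1) + 0 = (x + 0) + 1
    rw [h.add_zero, h.add_zero]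
  · intro n ih
    show (x + 1) + (n + 1) = (x + (n + 1)) + 1
    rw [h.add_succ, h.add_succ, ih]

lemma t2_add_comm (h : ACA0 𝒮) (x y : N) : x + y = y + x := by
  refine t2_ind h (P := fun y => x + y = y + x) ?_ ?_ ?_ y
  · exact Ar.eq ((TmF.const x).add (.var 0)) ((TmF.var 0).add (.const x))
  · show x + 0 = 0 + x
    rw [h.add_zero, t2_zero_add h]
  · intro n ih
    show x + (n + 1) = (n + 1) + x
    rw [h.add_succ, t2_succ_add h, ih]

lemma t2_zero_mul (h : ACA0 𝒮) (x : N) : 0 * x = 0 := by
  refine t2_ind h (P := fun x => 0 * x = 0) ?_ ?_ ?_ x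
  · exact Ar.eq ((TmF.const 0).mul (.var 0)) (.const 0)
  · exact h.mul_zero 0
  · intro n ih
    show 0 * (n + 1) = 0
    rw [h.mul_succ, ih, h.add_zero]

lemma t2_succ_mul (h : ACA0 𝒮) (x y : N) : (x + 1) * y = x * y + y := by
  refine t2_ind h (P := fun y => (x + 1) * y = x * y + y) ?_ ?_ ?_ y
  · exact Ar.eq (((TmF.const x).add (.const 1)).mul (.var 0))
      (((TmF.const x).mul (.var 0)).add (.var 0))
  · show (x + 1) * 0 = x * 0 + 0
    rw [h.mul_zero, h.mul_zero, h.add_zero]
  · intro n ih
    show (x + 1) * (n + 1) = x * (n + 1) + (n + 1)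
    rw [h.mul_succ (x + 1) n, h.mul_succ x n, ih, h.add_succ (x * n + n) x,
      h.add_succ (x * n + x) n, t2_add_assoc h (x * n) n x, t2_add_assoc h (x * n) x n,
      t2_add_comm h n x]

lemma t2_mul_comm (h : ACA0 𝒮) (x y : N) : x * y = y * x := by
  refine t2_ind h (P := fun y => x * y = y * x) ?_ ?_ ?_ y
  · exact Ar.eq ((TmF.const x).mul (.var 0)) ((TmF.var 0).mul (.const x))
  · show x * 0 = 0 * x
    rw [h.mul_zero, t2_zero_mul h]
  · intro n ih
    show x * (n + 1) = (n + 1) * x
    rw [h.mul_succ, t2_succ_mul h, ih]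

lemma t2_left_distrib (h : ACA0 𝒮) (x y w : N) : x * (y + w) = x * y + x * w := by
  refine t2_ind h (P := fun w => x * (y + w) = x * y + x * w) ?_ ?_ ?_ w
  · exact Ar.eq ((TmF.const x).mul ((TmF.const y).add (.var 0)))
      (((TmF.const x).mul (.const y)).add ((TmF.const x).mul (.var 0)))
  · show x * (y + 0) = x * y + x * 0
    rw [h.mul_zero, h.add_zero, h.add_zero]
  · intro n ih
    show x * (y + (n + 1)) = x * y + x * (n + 1)
    rw [h.add_succ, h.mul_succ, h.mul_succ, ih, t2_add_assoc h]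

lemma t2_mul_assoc (h : ACA0 𝒮) (x y w : N) : (x * y) * w = x * (y * w) := by
  refine t2_ind h (P := fun w => (x * y) * w = x * (y * w)) ?_ ?_ ?_ w
  · exact Ar.eq (((TmF.const x).mul (.const y)).mul (.var 0))
      ((TmF.const x).mul ((TmF.const y).mul (.var 0)))
  · show (x * y) * 0 = x * (y * 0)
    rw [h.mul_zero, h.mul_zero, h.mul_zero]
  · intro n ih
    show (x * y) * (n + 1) = x * (y * (n + 1))
    rw [h.mul_succ, h.mul_succ, ih, t2_left_distrib h]

lemma t2_mul_one (h : ACA0 𝒮) (x : N) : x * 1 = x := by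
  have e : (1 : N) = 0 + 1 := (t2_zero_add h 1).symm
  rw [e, h.mul_succ, h.mul_zero, t2_zero_add h]

/-! ### order -/

lemma t2_zero_le (h : ACA0 𝒮) (x : N) : 0 < x ∨ 0 = x := by
  refine t2_ind h (P := fun x => 0 < x ∨ 0 = x) ?_ ?_ ?_ x
  · exact (Ar.lt (.const 0) (.var 0)).or (Ar.eq (.const 0) (.var 0))
  · exact Or.inr rfl
  · intro n ih
    exact Or.inl ((h.lt_succ 0 n).2 ih)

lemma t2_trans (h : ACA0 𝒮) {x y w : N} : x < y → y < w → x < w := by
  refine t2_ind h (P := fun w => x < y → y < w → x < w) ?_ ?_ ?_ w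
  · exact (Ar.lt (.const x) (.const y)).imp ((Ar.lt (.const y) (.var 0)).imp
      (Ar.lt (.const x) (.var 0)))
  · intro _ hy
    exact absurd hy (h.not_lt_zero y)
  · intro n ih hxy hyn
    refine (h.lt_succ x n).2 (Or.inl ?_)
    rcases (h.lt_succ y n).1 hyn with h1 | h1
    · exact ih hxy h1
    · rw [← h1]
      exact hxy

lemma t2_lt_self_succ (h : ACA0 𝒮) (x : N) : x < x + 1 := (h.lt_succ x x).2 (Or.inr rfl)

lemma t2_irrefl (h : ACA0 𝒮) (x : N) : ¬ x < x := by
  refine t2_ind h (P := fun x => ¬ x < x) ?_ ?_ ?_ x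
  · exact (Ar.lt (.var 0) (.var 0)).not
  · exact h.not_lt_zero 0
  · intro n ih hn
    rcases (h.lt_succ (n + 1) n).1 hn with h1 | h1
    · exact ih (t2_trans h (t2_lt_self_succ h n) h1)
    · have h2 := t2_lt_self_succ h n
      rw [h1] at h2
      exact ih h2

lemma t2_succ_lt (h : ACA0 𝒮) {x y : N} : x < y → x + 1 < y + 1 := by
  refine t2_ind h (P := fun y => x < y → x + 1 < y + 1) ?_ ?_ ?_ y
  · exact (Ar.lt (.const x) (.var 0)).imp
      (Ar.lt ((TmF.const x).add (.const 1)) ((TmF.var 0).add (.const 1)))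
  · intro hx
    exact absurd hx (h.not_lt_zero x)
  · intro n ih hx
    refine (h.lt_succ (x + 1) (n + 1)).2 ?_
    rcases (h.lt_succ x n).1 hx with h1 | h1
    · exact Or.inl (ih h1)
    · exact Or.inr (by rw [h1])

lemma t2_tri (h : ACA0 𝒮) (x y : N) : x < y ∨ x = y ∨ y < x := by
  refine t2_ind h (P := fun y => x < y ∨ x = y ∨ y < x) ?_ ?_ ?_ y
  · exact (Ar.lt (.const x) (.var 0)).or ((Ar.eq (.const x) (.var 0)).or
      (Ar.lt (.var 0) (.const x)))
  · rcases t2_zero_le h x with h1 | h1
    · exact Or.inr (Or.inr h1)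
    · exact Or.inr (Or.inl h1.symm)
  · intro n ih
    rcases ih with h1 | h1 | h1
    · exact Or.inl ((h.lt_succ x n).2 (Or.inl h1))
    · exact Or.inl ((h.lt_succ x n).2 (Or.inr h1))
    · rcases (h.lt_succ (n + 1) x).1 (t2_succ_lt h h1) with h2 | h2
      · exact Or.inr (Or.inr h2)
      · exact Or.inr (Or.inl h2.symm)

lemma t2_add_lt (h : ACA0 𝒮) {x y : N} (w : N) (hxy : x < y) : w + x < w + y := by
  refine t2_ind h (P := fun w => w + x < w + y) ?_ ?_ ?_ w
  · exact Ar.lt ((TmF.var 0).add (.const x)) ((TmF.var 0).add (.const y))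
  · show 0 + x < 0 + y
    rw [t2_zero_add h, t2_zero_add h]
    exact hxy
  · intro n ih
    show (n + 1) + x < (n + 1) + y
    rw [t2_succ_add h, t2_succ_add h]
    exact t2_succ_lt h ih

lemma t2_mul_lt (h : ACA0 𝒮) {x y : N} (w : N) (hxy : x < y) : 0 < w → w * x < w * y := by
  have key : ∀ w : N, (0 < w → w * x < w * y) := by
    refine t2_ind h (P := fun w => 0 < w → w * x < w * y) ?_ ?_ ?_
    · exact (Ar.lt (.const 0) (.var 0)).imp
        (Ar.lt ((TmF.var 0).mul (.const x)) ((TmF.var 0).mul (.const y)))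
    · intro h0
      exact absurd h0 (h.not_lt_zero 0)
    · intro n ih _
      show (n + 1) * x < (n + 1) * y
      rw [t2_succ_mul h, t2_succ_mul h]
      rcases t2_zero_le h n with h1 | h1
      · have h2 := t2_add_lt h x (ih h1)
        have h3 := t2_add_lt h (n * y) hxy
        rw [t2_add_comm h (n * x) x]
        rw [t2_add_comm h x (n * y)] at h2
        exact t2_trans h h2 h3
      · rw [← h1, t2_zero_mul h, t2_zero_mul h, t2_zero_add h, t2_zero_add h]
        exact hxy
  exact key w

lemma t2_pred (h : ACA0 𝒮) (x : N) : x = 0 ∨ ∃ y, x = y + 1 := by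
  refine t2_ind h (P := fun x => x = 0 ∨ ∃ y, x = y + 1) ?_ ?_ ?_ x
  · exact (Ar.eq (.var 0) (.const 0)).or
      (Ar.ex (P := fun v _ y => v 0 = y + 1) (Ar.eq (.var 1) ((TmF.var 0).add (.const 1))))
  · exact Or.inl rfl
  · intro n _
    exact Or.inr ⟨n, rfl⟩

end t2

theorem ACA0.exists_inst {N : Type} [z : Zero N] [o : One N] [a : Add N] [m : Mul N] [l : LT N]
    {𝒮 : Set (Set N)} (h : ACA0 𝒮) :
    ∃ (cs : CommSemiring N) (lo : LinearOrder N) (so : IsStrictOrderedRing N),
      @Ari N cs lo so ∧ z = @csZero N cs ∧ o = @csOne N cs ∧ a = @csAdd N cs ∧ m = @csMul N cs ∧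
        l = @loLT N lo := by
  let cs : CommSemiring N :=
    { toZero := z
      toOne := o
      toAdd := a
      toMul := m
      nsmul := nsmulRec
      npow := npowRec
      add_assoc := t2_add_assoc h
      zero_add := t2_zero_add h
      add_zero := h.add_zero
      add_comm := t2_add_comm h
      left_distrib := t2_left_distrib h
      right_distrib := fun x y w => by
        rw [t2_mul_comm h, t2_left_distrib h, t2_mul_comm h w x, t2_mul_comm h w y]
      zero_mul := t2_zero_mul h
      mul_zero := h.mul_zero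
      mul_assoc := t2_mul_assoc h
      one_mul := fun x => by rw [t2_mul_comm h, t2_mul_one h]
      mul_one := t2_mul_one h
      mul_comm := t2_mul_comm h }
  let lo : LinearOrder N :=
    { lt := l.lt
      le := fun x y => x < y ∨ x = y
      le_refl := fun x => Or.inr rfl
      le_trans := by
        rintro x y w (h1 | rfl) (h2 | rfl)
        · exact Or.inl (t2_trans h h1 h2)
        · exact Or.inl h1
        · exact Or.inl h2
        · exact Or.inr rfl
      le_antisymm := by
        rintro x y (h1 | h1) (h2 | h2)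
        · exact absurd (t2_trans h h1 h2) (t2_irrefl h x)
        · exact h2.symm
        · exact h1
        · exact h1
      le_total := fun x y => by
        rcases t2_tri h x y with h1 | h1 | h1
        · exact Or.inl (Or.inl h1)
        · exact Or.inl (Or.inr h1)
        · exact Or.inr (Or.inl h1)
      lt_iff_le_not_ge := fun x y => by
        constructor
        · intro h1
          refine ⟨Or.inl h1, ?_⟩
          rintro (h2 | h2)
          · exact t2_irrefl h x (t2_trans h h1 h2)
          · subst h2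
            exact t2_irrefl h _ h1
        · rintro ⟨h1 | h1, h2⟩
          · exact h1
          · exact absurd (Or.inr h1.symm) h2
      toDecidableLE := Classical.decRel _ }
  have hadd : ∀ x y : N, (x < y ∨ x = y) → ∀ w : N, (x + w < y + w ∨ x + w = y + w) := by
    rintro x y (h1 | rfl) w
    · left
      rw [t2_add_comm h x w, t2_add_comm h y w]
      exact t2_add_lt h w h1
    · exact Or.inr rfl
  have hcan : ∀ x y w : N, (x + y < x + w ∨ x + y = x + w) → (y < w ∨ y = w) := by
    intro x y w h1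
    rcases t2_tri h y w with h2 | h2 | h2
    · exact Or.inl h2
    · exact Or.inr h2
    · have h3 := t2_add_lt h x h2
      rcases h1 with h1 | h1
      · exact absurd (t2_trans h h1 h3) (t2_irrefl h _)
      · rw [h1] at h3
        exact absurd h3 (t2_irrefl h _)
  have h01 : (0 : N) < 1 := by
    have h1 := t2_lt_self_succ h (0 : N)
    rwa [t2_zero_add h] at h1
  have so : @IsStrictOrderedRing N cs.toSemiring lo.toPartialOrder :=
    { add_le_add_left := fun x y h1 w => hadd x y h1 w
      le_of_add_le_add_left := fun x y w h1 => hcan x y w h1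
      zero_le_one := Or.inl h01
      exists_pair_ne := ⟨0, 1, fun e => t2_irrefl h (0 : N) (by
        have h2 : (0 : N) < 1 := h01
        have e' : (1 : N) = 0 := e.symm
        rwa [e'] at h2)⟩
      mul_lt_mul_of_pos_left := fun x hx y w hyw => t2_mul_lt h x hyw hx
      mul_lt_mul_of_pos_right := fun x hx y w hyw => by
        have h1 := t2_mul_lt h x hyw hx
        rw [t2_mul_comm h x y, t2_mul_comm h x w] at h1
        exact h1 }
  refine ⟨cs, lo, so, ?_, rfl, rfl, rfl, rfl, rfl⟩
  exact @Ari.mk N cs lo so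
    (fun x => (t2_zero_le h x))
    (fun x y => h.lt_succ x y)
    (fun x => t2_pred h x)

end Pool.Agent.Lib.MP_7de92b_lc
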